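import Mathlib

set_option autoImplicit false

namespace Pool.Agent.H6Ach

open Set Filter Topology

noncomputable section

/-- achievement set -/
def E (x : ℕ → ℝ) : Set ℝ := {s | ∃ A : Set ℕ, s = ∑' n, A.indicator x n}

/-- the tail of a sequence -/
def sh (k : ℕ) (x : ℕ → ℝ) : ℕ → ℝ := fun n => x (n + k)

variable {x : ℕ → ℝ}

lemma sh_nonneg (hx : ∀ n, 0 ≤ x n) (k : ℕ) : ∀ n, 0 ≤ sh k x n := fun _ => hx _

lemma sh_summ (hs : Summable x) (k : ℕ) : Summable (sh k x) := (summable_nat_add_iff k).2 hs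

lemma sh_sh (k : ℕ) (x : ℕ → ℝ) : sh 1 (sh k x) = sh (k + 1) x := by
  funext n; simp only [sh]; congr 1; ring

lemma zero_mem (x : ℕ → ℝ) : (0 : ℝ) ∈ E x := ⟨∅, by simp⟩

lemma full_mem (x : ℕ → ℝ) : ∑' n, x n ∈ E x := ⟨univ, by simp⟩

lemma E_succ (hs : Summable x) (s : ℝ) : s ∈ E x ↔ s ∈ E (sh 1 x) ∨ s - x 0 ∈ E (sh 1 x) := by
  constructor
  · rintro ⟨A, rfl⟩
    rw [(hs.indicator A).tsum_eq_zero_add]
    have h : ∑' n, A.indicator x (n + 1) ∈ E (sh 1 x) := ⟨{n | n + 1 ∈ A}, rfl⟩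
    by_cases h0 : 0 ∈ A
    · right; simpa [h0] using h
    · left; simpa [h0] using h
  · have key : ∀ (A : Set ℕ) (B : Set ℕ), (∀ n, n + 1 ∈ B ↔ n ∈ A) →
        ∑' n, B.indicator x n = B.indicator x 0 + ∑' n, A.indicator (sh 1 x) n := by
      intro A B h
      rw [(hs.indicator B).tsum_eq_zero_add]
      congr 1
      apply tsum_congr
      intro n
      by_cases hn : n ∈ A
      · rw [indicator_of_mem hn, indicator_of_mem ((h n).2 hn)]; rfl
      · rw [indicator_of_notMem hn, indicator_of_notMem (fun h' => hn ((h n).1 h'))]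
    rintro (⟨A, hA⟩ | ⟨A, hA⟩)
    · refine ⟨{n | n ≠ 0 ∧ n - 1 ∈ A}, ?_⟩
      rw [key A _ (by simp), hA]; simp
    · refine ⟨{n | n = 0 ∨ n - 1 ∈ A}, ?_⟩
      rw [key A _ (by simp), ← hA]; simp

lemma E_div (c : ℝ) (hc : c ≠ 0) (s : ℝ) : s ∈ E (fun n => x n / c) ↔ c * s ∈ E x := by
  have key : ∀ A : Set ℕ, ∑' n, A.indicator (fun n => x n / c) n = (∑' n, A.indicator x n) / c := by
    intro A
    rw [← tsum_div_const]
    apply tsum_congr
    intro n
    by_cases hn : n ∈ A <;> simp [hn]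
  constructor
  · rintro ⟨A, rfl⟩
    exact ⟨A, by rw [key]; field_simp⟩
  · rintro ⟨A, hA⟩
    exact ⟨A, by rw [key, ← hA]; field_simp⟩

lemma E_bounds (hx : ∀ n, 0 ≤ x n) (hs : Summable x) {s : ℝ} (h : s ∈ E x) :
    0 ≤ s ∧ s ≤ ∑' n, x n := by
  obtain ⟨A, rfl⟩ := h
  exact ⟨tsum_nonneg fun n => indicator_nonneg (fun i _ => hx i) n,
    (hs.indicator A).tsum_le_tsum (fun n => indicator_le_self' (fun i _ => hx i) n) hs⟩

lemma E_symm (hs : Summable x) {s : ℝ} (h : s ∈ E x) : ∑' n, x n - s ∈ E x := by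
  obtain ⟨A, rfl⟩ := h
  refine ⟨Aᶜ, ?_⟩
  rw [← hs.tsum_sub (hs.indicator A)]
  apply tsum_congr
  intro n
  by_cases hn : n ∈ A <;> simp [hn]

lemma E_compact (hx : ∀ n, 0 ≤ x n) (hs : Summable x) : IsCompact (E x) := by
  have hc : Continuous fun e : ℕ → Bool => ∑' n, (if e n then x n else 0 : ℝ) := by
    refine continuous_tsum (fun n => ?_) hs (fun n e => ?_)
    · exact (continuous_of_discreteTopology (f := fun b : Bool => if b then x n else 0)).comp
        (continuous_apply n)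
    · split_ifs
      · rw [Real.norm_eq_abs, abs_of_nonneg (hx n)]
      · simp [hx n]
  convert isCompact_range hc using 1
  ext s
  constructor
  · rintro ⟨A, rfl⟩
    classical
    refine ⟨fun n => decide (n ∈ A), tsum_congr fun n => ?_⟩
    by_cases hn : n ∈ A <;> simp [hn]
  · rintro ⟨e, rfl⟩
    refine ⟨{n | e n = true}, tsum_congr fun n => ?_⟩
    by_cases hn : e n = true <;> simp [hn]

lemma coind {T S : Set ℝ} (hT : IsClosed T) (h0 : (0 : ℝ) ∈ T) {R q : ℝ} (hq : 1 < q)
    (hR : ∀ z ∈ S, |z| ≤ R)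
    (h : ∀ z ∈ S, ∃ z' ∈ S, ∀ w ∈ T, z - z' / q + w / q ∈ T) : S ⊆ T := by
  have key : ∀ k : ℕ, ∀ z ∈ S, ∃ e ∈ T, |z - e| ≤ R * (1 / q) ^ k := by
    intro k
    induction k with
    | zero => intro z hz; exact ⟨0, h0, by simpa using hR z hz⟩
    | succ k ih =>
      intro z hz
      obtain ⟨z', hz', hw⟩ := h z hz
      obtain ⟨e, he, hb⟩ := ih z' hz'
      refine ⟨_, hw e he, ?_⟩
      have : z - (z - z' / q + e / q) = (z' - e) * (1 / q) := by ring
      rw [this, abs_mul, abs_of_pos (by positivity : 0 < 1 / q), pow_succ, ← mul_assoc]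
      gcongr
  intro z hz
  rw [← hT.closure_eq, Metric.mem_closure_iff]
  intro ε hε
  have ht : Tendsto (fun k : ℕ => R * (1 / q) ^ k) atTop (𝓝 (R * 0)) :=
    (tendsto_pow_atTop_nhds_zero_of_lt_one (by positivity)
      (by rw [div_lt_one (by linarith)]; exact hq)).const_mul R
  rw [mul_zero] at ht
  obtain ⟨k, hk⟩ := (ht.eventually (gt_mem_nhds hε)).exists
  obtain ⟨e, he, hb⟩ := key k z hz
  exact ⟨e, he, by rw [Real.dist_eq]; linarith⟩

lemma intv {T : Set ℝ} (hT : IsClosed T) (h0 : (0 : ℝ) ∈ T) (q : ℕ) (hq : 3 ≤ q)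
    (hD : ∀ d : ℕ, d ≠ 1 → (d < q ∨ d = q + 1) → ∀ w ∈ T, (d + w) / q ∈ T) :
    Icc (2 / ((q : ℝ) - 1)) 1 ⊆ T := by
  have hq' : (3 : ℝ) ≤ q := by exact_mod_cast hq
  have hα : 2 / ((q : ℝ) - 1) * q = 2 / ((q : ℝ) - 1) + 2 := by
    have : (q : ℝ) - 1 ≠ 0 := by linarith
    field_simp; ring
  have hα0 : 0 ≤ 2 / ((q : ℝ) - 1) := div_nonneg (by norm_num) (by linarith)
  have key : ∀ k j : ℕ, ∀ z : ℝ, 2 / ((q : ℝ) - 1) ≤ z → z ≤ 1 + j →
      ∃ i : ℕ, i ≤ j ∧ ∃ w ∈ T, |z - i - w| ≤ (1 / q) ^ k := by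
    intro k
    induction k with
    | zero =>
      intro j z h1 h2
      by_cases h : z ≤ j
      · refine ⟨⌊z⌋₊, Nat.floor_le_of_le h, 0, h0, ?_⟩
        have := Nat.floor_le (hα0.trans h1)
        have := Nat.lt_floor_add_one z
        rw [abs_le]; constructor <;> simp <;> linarith
      · refine ⟨j, le_rfl, 0, h0, ?_⟩
        push Not at h
        rw [abs_le]; constructor <;> simp <;> linarith
    | succ k ih =>
      intro j z h1 h2
      obtain ⟨i', hi', w, hw, hb⟩ := ih (q * j + q - 3) (q * z - 2) (by nlinarith) (by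
        rw [Nat.cast_sub (by omega)]; push_cast; nlinarith)
      have hdec : ∃ i d : ℕ, i ≤ j ∧ d ≠ 1 ∧ (d < q ∨ d = q + 1) ∧ i' + 2 = q * i + d := by
        have e := Nat.div_add_mod (i' + 2) q
        have hm := Nat.mod_lt (i' + 2) (by omega : 0 < q)
        have hj : (i' + 2) / q ≤ j := by
          apply Nat.le_of_lt_succ
          rw [Nat.div_lt_iff_lt_mul (by omega)]
          have : (j + 1) * q = q * j + q := by ring
          simp only [Nat.succ_eq_add_one]
          omega
        by_cases h1 : (i' + 2) % q = 1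
        · obtain ⟨i, hi⟩ : ∃ i, (i' + 2) / q = i + 1 := by
            refine Nat.exists_eq_succ_of_ne_zero fun h => ?_
            rw [h] at e; omega
          refine ⟨i, q + 1, by omega, by omega, Or.inr rfl, ?_⟩
          rw [hi, h1] at e
          rw [← e]; ring
        · exact ⟨_, _, hj, h1, Or.inl hm, e.symm⟩
      obtain ⟨i, d, hi, hd1, hd2, he⟩ := hdec
      refine ⟨i, hi, _, hD d hd1 hd2 w hw, ?_⟩
      have he' : (i' : ℝ) + 2 = q * i + d := by exact_mod_cast he
      have : z - i - (d + w) / q = (q * z - 2 - i' - w) * (1 / q) := by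
        field_simp; linarith
      rw [this, abs_mul, abs_of_pos (by positivity : (0 : ℝ) < 1 / q), pow_succ]
      gcongr
  intro z hz
  rw [← hT.closure_eq, Metric.mem_closure_iff]
  intro ε hε
  have ht : Tendsto (fun k : ℕ => (1 / (q : ℝ)) ^ k) atTop (𝓝 0) :=
    tendsto_pow_atTop_nhds_zero_of_lt_one (by positivity)
      (by rw [div_lt_one (by linarith)]; linarith)
  obtain ⟨k, hk⟩ := (ht.eventually (gt_mem_nhds hε)).exists
  obtain ⟨i, hi, w, hw, hb⟩ := key k 0 z hz.1 (by simpa using hz.2)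
  obtain rfl : i = 0 := by omega
  exact ⟨w, hw, by rw [Real.dist_eq]; simp at hb hk; linarith⟩

lemma split (hs : Summable x) (k : ℕ) : ∃ F : Set ℝ, F.Finite ∧
    ∀ s, s ∈ E x ↔ ∃ f ∈ F, s - f ∈ E (sh k x) := by
  induction k with
  | zero => exact ⟨{0}, finite_singleton _, fun s => by simp; rfl⟩
  | succ k ih =>
    obtain ⟨F, hF, h⟩ := ih
    refine ⟨F ∪ (fun f => f + x k) '' F, hF.union (hF.image _), fun s => ?_⟩
    rw [h]
    have e : sh k x 0 = x k := by simp [sh]
    constructor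
    · rintro ⟨f, hf, h1⟩
      rw [E_succ (sh_summ hs k), sh_sh, e] at h1
      rcases h1 with h1 | h1
      · exact ⟨f, Or.inl hf, h1⟩
      · exact ⟨f + x k, Or.inr ⟨f, hf, rfl⟩, by rwa [← sub_sub]⟩
    · rintro ⟨f, hf | ⟨g, hg, rfl⟩, h1⟩
      · exact ⟨f, hf, by rw [E_succ (sh_summ hs k), sh_sh]; exact Or.inl h1⟩
      · exact ⟨g, hg, by rw [E_succ (sh_summ hs k), sh_sh, e, sub_sub]; exact Or.inr h1⟩

lemma tail_sub (hs : Summable x) (k : ℕ) : E (sh k x) ⊆ E x := by
  induction k with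
  | zero => exact Subset.rfl
  | succ k ih =>
    intro s h
    apply ih
    rw [E_succ (sh_summ hs k), sh_sh]; exact Or.inl h

lemma tail_small (x : ℕ → ℝ) {δ : ℝ} (hδ : 0 < δ) : ∃ k, ∑' n, sh k x n < δ :=
  ((tendsto_sum_nat_add x).eventually (gt_mem_nhds hδ)).exists

lemma tail_int (hx : ∀ n, 0 ≤ x n) (hs : Summable x) (hi : (interior (E x)).Nonempty) (k : ℕ) :
    (interior (E (sh k x))).Nonempty := by
  induction k with
  | zero => exact hi
  | succ k ih =>
    by_contra hc
    rw [not_nonempty_iff_eq_empty] at hc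
    have h1 : E (sh k x) =
        E (sh (k + 1) x) ∪ (Homeomorph.addRight (-(sh k x 0))) ⁻¹' E (sh (k + 1) x) := by
      ext s
      rw [E_succ (sh_summ hs k), sh_sh]
      simp [sub_eq_add_neg]
    rw [h1, interior_union_isClosed_of_interior_empty
      (E_compact (sh_nonneg hx _) (sh_summ hs _)).isClosed
      (by rw [← Homeomorph.preimage_interior, hc]; rfl), hc] at ih
    exact not_nonempty_empty ih

lemma closure_int (hx : ∀ n, 0 ≤ x n) (hs : Summable x) (hi : (interior (E x)).Nonempty) :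
    closure (interior (E x)) = E x := by
  apply Subset.antisymm (closure_minimal interior_subset (E_compact hx hs).isClosed)
  intro p hp
  rw [Metric.mem_closure_iff]
  intro ε hε
  obtain ⟨k, hk⟩ := tail_small x hε
  obtain ⟨F, -, hF⟩ := split hs k
  obtain ⟨f, hf, h1⟩ := (hF p).1 hp
  obtain ⟨u, hu⟩ := tail_int hx hs hi k
  refine ⟨u + f, ?_, ?_⟩
  · have : (Homeomorph.addRight (-f)) ⁻¹' E (sh k x) ⊆ E x := by
      intro s hs'
      exact (hF s).2 ⟨f, hf, by simpa [sub_eq_add_neg] using hs'⟩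
    apply interior_mono this
    rw [← Homeomorph.preimage_interior]
    simpa using hu
  · have b1 := E_bounds (sh_nonneg hx k) (sh_summ hs k) h1
    have b2 := E_bounds (sh_nonneg hx k) (sh_summ hs k) (interior_subset hu)
    rw [Real.dist_eq, abs_lt]; constructor <;> linarith

lemma right_end (hx : ∀ n, 0 ≤ x n) (hs : Summable x)
    (hg : ∀ δ > 0, ∃ τ, 0 < τ ∧ τ < δ ∧ τ ∉ E x) {t c : ℝ} (htc : t < c)
    (hgap : ∀ s, t < s → s < c → s ∉ E x) {η : ℝ} (hη : 0 < η) :
    ∃ s, c < s ∧ s < c + η ∧ s ∉ E x := by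
  obtain ⟨k, hk⟩ := tail_small x (sub_pos.2 htc)
  obtain ⟨F, hfin, hF⟩ := split hs k
  have h1 : ∀ᶠ s in 𝓝[>] c, s ∉ F := by
    have : (F \ {c})ᶜ ∈ 𝓝 c :=
      (hfin.subset sdiff_subset).isClosed.isOpen_compl.mem_nhds (by simp)
    filter_upwards [nhdsWithin_le_nhds this, self_mem_nhdsWithin] with s h1 h2 h3
    exact h1 ⟨h3, ne_of_gt h2⟩
  obtain ⟨b, hb, hb'⟩ := mem_nhdsGT_iff_exists_Ioo_subset.1 h1
  obtain ⟨τ, h0, h2, h3⟩ := hg (min η (b - c)) (lt_min hη (sub_pos.2 hb))
  have h4 := min_le_left η (b - c)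
  have h5 := min_le_right η (b - c)
  refine ⟨c + τ, by linarith, by linarith, fun h => h3 ?_⟩
  obtain ⟨f, hf, h6⟩ := (hF _).1 h
  have b1 := E_bounds (sh_nonneg hx k) (sh_summ hs k) h6
  have hfE : f ∈ E x := (hF f).2 ⟨f, hf, by simpa using zero_mem _⟩
  have h7 : c ≤ f := by
    by_contra hc
    exact hgap f (by linarith) (not_le.1 hc) hfE
  have h8 : f = c := by
    by_contra hne
    exact hb' ⟨lt_of_le_of_ne h7 (Ne.symm hne), by linarith⟩ hf
  rw [h8] at h6
  exact tail_sub hs k (by simpa using h6)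

lemma left_end (hx : ∀ n, 0 ≤ x n) (hs : Summable x)
    (hg : ∀ δ > 0, ∃ τ, 0 < τ ∧ τ < δ ∧ τ ∉ E x) {t c : ℝ} (htc : c < t)
    (hgap : ∀ s, c < s → s < t → s ∉ E x) {η : ℝ} (hη : 0 < η) :
    ∃ s, c - η < s ∧ s < c ∧ s ∉ E x := by
  obtain ⟨s, h1, h2, h3⟩ := right_end hx hs hg (t := ∑' n, x n - t) (c := ∑' n, x n - c)
    (by linarith) (fun s h1 h2 h => hgap _ (by linarith) (by linarith) (E_symm hs h)) hη
  refine ⟨∑' n, x n - s, by linarith, by linarith, fun h => h3 ?_⟩
  simpa using E_symm hs h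

lemma single {K : Set ℝ} {c : ℝ} (hc : c ∈ K) (h1 : ∀ η > 0, ∃ s, c < s ∧ s < c + η ∧ s ∉ K)
    (h2 : ∀ η > 0, ∃ s, c - η < s ∧ s < c ∧ s ∉ K) : connectedComponentIn K c = {c} := by
  have hm := mem_connectedComponentIn hc
  have ho := (isPreconnected_connectedComponentIn (F := K) (x := c)).ordConnected
  apply Subset.antisymm _ (singleton_subset_iff.2 hm)
  intro z hz
  by_contra hne
  rcases lt_or_gt_of_ne hne with h | h
  · obtain ⟨s, a, b, d⟩ := h2 (c - z) (by linarith)
    exact d (connectedComponentIn_subset _ _ (ho.out hz hm ⟨by linarith, b.le⟩))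
  · obtain ⟨s, a, b, d⟩ := h1 (z - c) (by linarith)
    exact d (connectedComponentIn_subset _ _ (ho.out hm hz ⟨a.le, by linarith⟩))

lemma ends (hx : ∀ n, 0 ≤ x n) (hs : Summable x)
    (hg : ∀ δ > 0, ∃ τ, 0 < τ ∧ τ < δ ∧ τ ∉ E x) (p : ℝ) (hp : p ∈ E x) :
    sInf (connectedComponentIn (E x) p) ∈
        closure {y ∈ E x | connectedComponentIn (E x) y = {y}} ∧
      sSup (connectedComponentIn (E x) p) ∈
        closure {y ∈ E x | connectedComponentIn (E x) y = {y}} := by
  have hK := E_compact hx hs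
  set J := connectedComponentIn (E x) p with hJ
  have hm : p ∈ J := mem_connectedComponentIn hp
  have hsub : J ⊆ E x := connectedComponentIn_subset _ _
  have ho : J.OrdConnected := isPreconnected_connectedComponentIn.ordConnected
  have hbb : BddBelow J := hK.bddBelow.mono hsub
  have hba : BddAbove J := hK.bddAbove.mono hsub
  have ha : sInf J ∈ E x := closure_minimal hsub hK.isClosed (csInf_mem_closure ⟨p, hm⟩ hbb)
  have hb : sSup J ∈ E x := closure_minimal hsub hK.isClosed (csSup_mem_closure ⟨p, hm⟩ hba)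
  have hap := csInf_le hbb hm
  have hpb := le_csSup hba hm
  constructor
  · rw [Metric.mem_closure_iff]
    intro δ hδ
    have h1 : ∃ t, sInf J - δ < t ∧ t < sInf J ∧ t ∉ E x := by
      by_contra hc
      push Not at hc
      have h2 : Icc (sInf J - δ / 2) p ⊆ E x := by
        intro s hs'
        rcases lt_trichotomy s (sInf J) with h | h | h
        · exact hc s (by linarith [hs'.1]) h
        · rw [h]; exact ha
        · obtain ⟨j, hj, hjs⟩ := exists_lt_of_csInf_lt ⟨p, hm⟩ h
          exact hsub (ho.out hj hm ⟨hjs.le, hs'.2⟩)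
      have h3 := isPreconnected_Icc.subset_connectedComponentIn
        (right_mem_Icc.2 (by linarith)) h2 (left_mem_Icc.2 (by linarith))
      have := csInf_le hbb h3
      linarith
    obtain ⟨t, t1, t2, t3⟩ := h1
    obtain ⟨c, ⟨c1, c2, c3⟩, hmin⟩ :=
      (hK.inter_right (isClosed_Icc (a := t) (b := sInf J))).exists_isMinOn
        ⟨_, ha, t2.le, le_rfl⟩ continuousOn_id
    have htc : t < c := lt_of_le_of_ne c2 (by rintro rfl; exact t3 c1)
    have hgap : ∀ s, t < s → s < c → s ∉ E x := by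
      intro s s1 s2 s3
      have := hmin ⟨s3, s1.le, by linarith⟩
      simp at this
      linarith
    refine ⟨c, ⟨c1, single c1 (fun η hη => right_end hx hs hg htc hgap hη) fun η hη => ?_⟩, ?_⟩
    · have := le_max_left t (c - η)
      have := le_max_right t (c - η)
      have : max t (c - η) < c := max_lt htc (by linarith)
      exact ⟨(max t (c - η) + c) / 2, by linarith, by linarith,
        hgap _ (by linarith) (by linarith)⟩
    · rw [Real.dist_eq, abs_lt]; constructor <;> linarith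
  · rw [Metric.mem_closure_iff]
    intro δ hδ
    have h1 : ∃ t, sSup J < t ∧ t < sSup J + δ ∧ t ∉ E x := by
      by_contra hc
      push Not at hc
      have h2 : Icc p (sSup J + δ / 2) ⊆ E x := by
        intro s hs'
        rcases lt_trichotomy s (sSup J) with h | h | h
        · obtain ⟨j, hj, hjs⟩ := exists_lt_of_lt_csSup ⟨p, hm⟩ h
          exact hsub (ho.out hm hj ⟨hs'.1, hjs.le⟩)
        · rw [h]; exact hb
        · exact hc s h (by linarith [hs'.2])
      have h3 := isPreconnected_Icc.subset_connectedComponentIn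
        (left_mem_Icc.2 (by linarith)) h2 (right_mem_Icc.2 (by linarith))
      have := le_csSup hba h3
      linarith
    obtain ⟨t, t1, t2, t3⟩ := h1
    obtain ⟨c, ⟨c1, c2, c3⟩, hmax⟩ :=
      (hK.inter_right (isClosed_Icc (a := sSup J) (b := t))).exists_isMaxOn
        ⟨_, hb, le_rfl, t1.le⟩ continuousOn_id
    have htc : c < t := lt_of_le_of_ne c3 (by rintro rfl; exact t3 c1)
    have hgap : ∀ s, c < s → s < t → s ∉ E x := by
      intro s s1 s2 s3
      have := hmax ⟨s3, by linarith, s2.le⟩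
      simp at this
      linarith
    refine ⟨c, ⟨c1, single c1 (fun η hη => ?_) fun η hη => left_end hx hs hg htc hgap hη⟩, ?_⟩
    · have := min_le_left t (c + η)
      have := min_le_right t (c + η)
      have : c < min t (c + η) := lt_min htc (by linarith)
      exact ⟨(min t (c + η) + c) / 2, by linarith, by linarith,
        hgap _ (by linarith) (by linarith)⟩
    · rw [Real.dist_eq, abs_lt]; constructor <;> linarith

/-- summability and sum of a block-geometric sequence -/
lemma block_sum {m : ℕ} (hm : 0 < m) {q : ℝ} (hq : 1 < q) (hx : ∀ n, 0 ≤ x n)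
    (h : ∀ n, x (n + m) = x n / q) :
    Summable x ∧ ∑' n, x n = (∑ i ∈ Finset.range m, x i) * q / (q - 1) := by
  have hS : 0 ≤ ∑ i ∈ Finset.range m, x i := Finset.sum_nonneg fun i _ => hx i
  have hs : Summable x := by
    apply summable_of_sum_range_le hx (c := (∑ i ∈ Finset.range m, x i) * q / (q - 1))
    have key : ∀ k, ∑ i ∈ Finset.range (m * k), x i ≤
        (∑ i ∈ Finset.range m, x i) * q / (q - 1) := by
      intro k
      induction k with
      | zero => simp; exact div_nonneg (by positivity) (by linarith)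
      | succ k ih =>
        rw [show m * (k + 1) = m + m * k by ring, Finset.sum_range_add]
        have : ∑ i ∈ Finset.range (m * k), x (m + i) = (∑ i ∈ Finset.range (m * k), x i) / q := by
          rw [Finset.sum_div]
          exact Finset.sum_congr rfl fun i _ => by rw [add_comm, h]
        rw [this]
        have h2 : (∑ i ∈ Finset.range (m * k), x i) / q ≤
            (∑ i ∈ Finset.range m, x i) * q / (q - 1) / q := by gcongr
        have h3 : (∑ i ∈ Finset.range m, x i) + (∑ i ∈ Finset.range m, x i) * q / (q - 1) / q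
            = (∑ i ∈ Finset.range m, x i) * q / (q - 1) := by
          have : q - 1 ≠ 0 := by linarith
          field_simp; ring
        linarith
    intro n
    refine le_trans ?_ (key n)
    exact Finset.sum_le_sum_of_subset_of_nonneg
      (Finset.range_mono (Nat.le_mul_of_pos_left n hm)) fun i _ _ => hx i
  refine ⟨hs, ?_⟩
  have h1 := hs.sum_add_tsum_nat_add m
  simp only [h, tsum_div_const] at h1
  have : q - 1 ≠ 0 := by linarith
  have hq0 : q ≠ 0 := by linarith
  field_simp at h1 ⊢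
  linarith

end

end Pool.Agent.H6Ach
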