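import Mathlib

set_option autoImplicit false

namespace Pool.Agent.Lib.helper6.Ck

open Set Topology Filter TopologicalSpace Cardinal

lemma no_univ {D S : Type} [Countable D] (hS : 𝔠 ≤ #S) (F : Set S → Filter D)
    (hF : Function.Injective F) (d : D) (X : Type) [TopologicalSpace X] [SeparableSpace X] :
    ¬ ∀ Z, ∃ (Y : Type) (_ : TopologicalSpace Y) (_ : MetrizableSpace Y) (e : D → C(X, Y)),
      F Z = comap e (𝓝 (e d)) := by
  intro H
  choose Y t m e h using H
  obtain ⟨Q, q1, q2⟩ := exists_countable_dense X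
  have := q1.to_subtype
  let _ := fun Z => metrizableSpaceMetric (Y Z)
  have key : ∀ Z W, (fun p : D × Q => dist (e Z d p.2) (e Z p.1 p.2)) =
      (fun p : D × Q => dist (e W d p.2) (e W p.1 p.2)) → F Z ≤ F W := by
    intro Z W hh
    have h1 : Tendsto (e Z) (F Z) (𝓝 (e Z d)) := tendsto_iff_comap.2 (h Z).le
    rw [h W, ← tendsto_iff_comap]
    simp only [ContinuousMap.tendsto_iff_forall_isCompact_tendstoUniformlyOn,
      Metric.tendstoUniformlyOn_iff] at h1 ⊢
    refine fun K hK ε hε => (h1 K hK ε hε).mono fun n hn x hx => ?_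
    refine (congrFun (Continuous.ext_on q2 ((e W d).continuous.dist (e W n).continuous)
      ((e Z d).continuous.dist (e Z n).continuous) fun y hy => (congrFun hh (n, ⟨y, hy⟩)).symm)
      x).trans_lt (hn x hx)
  have h1 := mk_le_of_injective (f := fun Z (p : D × Q) => dist (e Z d p.2) (e Z p.1 p.2))
    fun Z W hh => hF (le_antisymm (key Z W hh) (key W Z hh.symm))
  rw [mk_set, ← power_def, mk_real] at h1
  have h2 := h1.trans ((power_le_power_left continuum_ne_zero (mk_le_aleph0 (α := D × Q))).trans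
    continuum_power_aleph0.le)
  exact (cantor _).not_ge (h2.trans hS)

/-- test functions -/
noncomputable def g (Z : Set ℝ) (d : ℕ × ℤ) : C(Z, ℝ) :=
  ⟨fun y => max 0 (2 - |d.1 * y.1 - d.2|), by fun_prop⟩

lemma inj : Function.Injective fun Z => comap (g Z) (𝓝 (g Z (0, 2))) := by
  have key : ∀ (Z : Set ℝ) (x : ℝ), x ∉ Z ↔ Tendsto (fun n : ℕ => (n, ⌊n * x⌋)) atTop (comap (g Z) (𝓝 (g Z (0, 2)))) := by
    intro Z x
    have b : ∀ n : ℕ, |n * x - ⌊n * x⌋| < 1 := fun n => by
      rw [abs_of_nonneg (sub_nonneg.2 (Int.floor_le _))]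
      linarith [Int.lt_floor_add_one (n * x)]
    rw [tendsto_comap_iff]
    refine ⟨fun hx => ?_, fun h hx => ?_⟩
    · rw [ContinuousMap.tendsto_iff_forall_isCompact_tendstoUniformlyOn]
      intro K hK
      obtain ⟨r, r1, r2⟩ := Metric.mem_nhds_iff.1
        ((hK.image continuous_subtype_val).isClosed.isOpen_compl.mem_nhds (x := x)
          fun ⟨y, _, h⟩ => hx (h ▸ y.2))
      refine Metric.tendstoUniformlyOn_iff.2 fun ε hε => ?_
      filter_upwards [tendsto_natCast_atTop_atTop.eventually_ge_atTop (3 / r)] with n hn y hy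
      have h1 : r ≤ |y.1 - x| := not_lt.1 fun h => r2 h ⟨y, hy, rfl⟩
      have h2 : 2 - |n * y.1 - ⌊n * x⌋| ≤ 0 := by
        have := abs_sub_le (n * y.1) ⌊n * x⌋ (n * x)
        rw [← mul_sub, abs_mul, Nat.abs_cast, abs_sub_comm (⌊n * x⌋ : ℝ)] at this
        rw [div_le_iff₀ r1] at hn
        nlinarith [b n, mul_le_mul_of_nonneg_left h1 (Nat.cast_nonneg n)]
      simpa [g, max_eq_left h2] using hε
    · have := ((continuous_eval_const (⟨x, hx⟩ : Z)).tendsto _).comp h
      have h2 := ge_of_tendsto' (b := 1) this fun n => le_max_of_le_right (by linarith [b n])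
      norm_num [g] at h2
  intro Z W h
  exact Set.ext fun x => not_iff_not.1 (by rw [key, key, show comap (g Z) _ = _ from h])

end Pool.Agent.Lib.helper6.Ck
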