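import Mathlib

set_option autoImplicit false
open MeasureTheory ProbabilityTheory

namespace Pool.Agent.Lib.helper6.Coin

noncomputable section

/-- a biased coin: `true` with probability 1/16 -/
def nu : Measure Bool :=
  ENNReal.ofReal (1 / 16) • Measure.dirac true + ENNReal.ofReal (15 / 16) • Measure.dirac false

instance : IsProbabilityMeasure nu := ⟨by
  simp only [nu, Measure.add_apply, Measure.smul_apply, measure_univ, smul_eq_mul, mul_one]
  rw [← ENNReal.ofReal_add (by norm_num) (by norm_num)]
  norm_num⟩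

lemma int_nu (G : Bool → ℝ) : ∫ b, G b ∂nu = 1 / 16 * G true + 15 / 16 * G false := by
  unfold nu
  rw [integral_add_measure, integral_smul_measure, integral_smul_measure, integral_dirac,
    integral_dirac, ENNReal.toReal_ofReal (by norm_num), ENNReal.toReal_ofReal (by norm_num)]
  · simp
  · exact (Integrable.of_finite).smul_measure ENNReal.ofReal_ne_top
  · exact (Integrable.of_finite).smul_measure ENNReal.ofReal_ne_top

/-- independent biased coins -/
def mu (ι : Type) : Measure (ι → Bool) := Measure.infinitePi (fun _ => nu)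

instance (ι : Type) : IsProbabilityMeasure (mu ι) := by unfold mu; infer_instance

variable {ι : Type}

lemma mp (i : ι) : MeasurePreserving (fun ω : ι → Bool => ω i) (mu ι) nu :=
  measurePreserving_eval_infinitePi (fun _ => nu) i

lemma int_eval (i : ι) (G : Bool → ℝ) :
    ∫ ω, G (ω i) ∂mu ι = 1 / 16 * G true + 15 / 16 * G false := by
  rw [← int_nu, ← (mp i).map_eq, integral_map (measurable_pi_apply i).aemeasurable
    (measurable_of_finite G).aestronglyMeasurable]

lemma ind {β : Type} [MeasurableSpace β] (X : ι → Bool → β) :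
    iIndepFun (fun i (ω : ι → Bool) => X i (ω i)) (mu ι) :=
  iIndepFun_infinitePi (fun _ => measurable_of_finite _)

lemma idd {β : Type} [MeasurableSpace β] (G : Bool → β) (i j : ι) :
    IdentDistrib (fun ω : ι → Bool => G (ω i)) (fun ω : ι → Bool => G (ω j)) (mu ι) (mu ι) := by
  have h : IdentDistrib (fun ω : ι → Bool => ω i) (fun ω : ι → Bool => ω j) (mu ι) (mu ι) :=
    ⟨(measurable_pi_apply i).aemeasurable, (measurable_pi_apply j).aemeasurable, by
      rw [(mp i).map_eq, (mp j).map_eq]⟩
  exact h.comp (measurable_of_finite G)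

/-- `F` depends only on the coordinates in `A` -/
def Dep (A : Finset ι) (F : (ι → Bool) → ℝ) : Prop :=
  ∀ ω ω', (∀ i ∈ A, ω i = ω' i) → F ω = F ω'

open Classical in
def ex (A : Finset ι) (x : A → Bool) : ι → Bool := fun i => if h : i ∈ A then x ⟨i, h⟩ else false

lemma Dep.eq {A : Finset ι} {F : (ι → Bool) → ℝ} (h : Dep A F) :
    F = (fun x => F (ex A x)) ∘ (fun ω (i : A) => ω i) := by
  funext ω
  apply h
  intro i hi
  simp [ex, hi]

lemma Dep.meas {A : Finset ι} {F : (ι → Bool) → ℝ} (h : Dep A F) : Measurable F := by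
  rw [h.eq]
  exact (measurable_of_finite _).comp (by fun_prop)

lemma Dep.int {A : Finset ι} {F : (ι → Bool) → ℝ} (h : Dep A F) : Integrable F (mu ι) := by
  rw [h.eq]
  have hm : Measurable (fun (ω : ι → Bool) (i : A) => ω i) := by fun_prop
  have : IsProbabilityMeasure ((mu ι).map (fun (ω : ι → Bool) (i : A) => ω i)) :=
    Measure.isProbabilityMeasure_map hm.aemeasurable
  exact (integrable_map_measure (measurable_of_finite _).aestronglyMeasurable
    hm.aemeasurable).1 Integrable.of_finite

lemma dep_eval (j : ι) (G : Bool → ℝ) : Dep {j} (fun ω => G (ω j)) := by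
  intro ω ω' h
  simp only [h j (by simp)]

lemma Dep.mul_eval {A : Finset ι} {F : (ι → Bool) → ℝ} (h : Dep A F) {j : ι} (hj : j ∉ A)
    (G : Bool → ℝ) :
    ∫ ω, F ω * G (ω j) ∂mu ι = (∫ ω, F ω ∂mu ι) * (1 / 16 * G true + 15 / 16 * G false) := by
  have h1 := (ind (ι := ι) (fun _ b => b)).indepFun_finset A {j} (by simpa using hj)
    (fun i => measurable_pi_apply i)
  have h2 : IndepFun F (fun ω => G (ω j)) (mu ι) := by
    rw [h.eq, (dep_eval j G).eq]
    exact h1.comp (measurable_of_finite _) (measurable_of_finite _)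
  rw [← int_eval j G]
  exact h2.integral_fun_mul_eq_mul_integral h.meas.aestronglyMeasurable
    (dep_eval j G).meas.aestronglyMeasurable

/-- the index of a least coordinate -/
def am (v : Fin 2 → ℝ) : Fin 2 := if v 0 ≤ v 1 then 0 else 1

lemma am_le (v : Fin 2 → ℝ) (j : Fin 2) : v (am v) ≤ v j := by
  unfold am
  fin_cases j <;> split_ifs with h <;> simp <;> linarith

/-- the workload vector of a two-server queue with unit interarrival times -/
def V (s : ℕ → ℝ) : ℕ → Fin 2 → ℝ
  | 0 => fun _ => 0
  | n + 1 => fun j => max 0 (V s n j + (if j = am (V s n) then s n else 0) - 1)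

lemma iInf_two (v : Fin 2 → ℝ) : ⨅ j, v j = min (v 0) (v 1) := by
  apply le_antisymm
  · exact le_min (ciInf_le (Finite.bddBelow_range _) 0) (ciInf_le (Finite.bddBelow_range _) 1)
  · apply le_ciInf
    intro j
    fin_cases j <;> simp

lemma V_succ (s : ℕ → ℝ) (n : ℕ) (a b : ℝ) (h0 : V s n 0 = a) (h1 : V s n 1 = b) :
    (a ≤ b → V s (n + 1) 0 = max 0 (a + s n - 1) ∧ V s (n + 1) 1 = max 0 (b - 1)) ∧
    (b < a → V s (n + 1) 0 = max 0 (a - 1) ∧ V s (n + 1) 1 = max 0 (b + s n - 1)) := by
  constructor
  · intro h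
    have : am (V s n) = 0 := by simp [am, h0, h1, h]
    simp [V, this, h0, h1]
  · intro h
    have : am (V s n) = 1 := by simp [am, h0, h1, h]
    simp [V, this, h0, h1]

end

end Pool.Agent.Lib.helper6.Coin
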