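import Mathlib

set_option autoImplicit false

namespace Pool.Agent.Lib.helper6.Cross

open Set Topology Filter TopologicalSpace
open scoped ENNReal

universe u v

variable {X : Type u} {Y : Type v} [TopologicalSpace X] [TopologicalSpace Y]

/-- separately continuous real functions -/
def S (X : Type u) (Y : Type v) [TopologicalSpace X] [TopologicalSpace Y] :=
  {s : X × Y → ℝ // (∀ x, Continuous fun y => s (x, y)) ∧ ∀ y, Continuous fun x => s (x, y)}

/-- the cross of a point -/
def cr (c : X × Y) : Set (X × Y) := {p | p.2 = c.2 ∨ p.1 = c.1}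

/-- the cross-open topology -/
@[reducible] def cro (X : Type u) (Y : Type v) [TopologicalSpace X] [TopologicalSpace Y] :
    TopologicalSpace (S X Y) :=
  generateFrom {T | ∃ (c : X × Y) (O : Set (X × Y)) (W : Set ℝ), IsOpen O ∧ IsOpen W ∧
    T = {s | MapsTo s.1 (closure (O ∩ cr c) ∩ cr c) W}}

/-- the cross-uniform topology -/
@[reducible] def cru (X : Type u) (Y : Type v) [TopologicalSpace X] [TopologicalSpace Y] :
    TopologicalSpace (S X Y) :=
  generateFrom {T | ∃ (c : X × Y) (s : S X Y) (ε : ℝ≥0∞),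
    T = {t | ⨆ p ∈ cr c, edist (s.1 p) (t.1 p) < ε}}

lemma ev_cru (p : X × Y) : Continuous[cru X Y, _] fun s : S X Y => s.1 p := by
  let _ := cru X Y
  refine continuous_iff_continuousAt.2 fun s => EMetric.tendsto_nhds.2 fun ε hε => ?_
  have ho : IsOpen {t : S X Y | ⨆ q ∈ cr p, edist (s.1 q) (t.1 q) < ε} :=
    isOpen_generateFrom_of_mem ⟨p, s, ε, rfl⟩
  filter_upwards [ho.mem_nhds (x := s) (by simpa using hε)] with t ht
  rw [edist_comm]
  exact (le_iSup₂ (f := fun q (_ : q ∈ cr p) => edist (s.1 q) (t.1 q)) p (Or.inl rfl)).trans_lt ht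

lemma ev_cro [T1Space X] [T1Space Y] (p : X × Y) :
    Continuous[cro X Y, _] fun s : S X Y => s.1 p := by
  let _ := cro X Y
  refine continuous_iff_continuousAt.2 fun s W hW => ?_
  obtain ⟨V, hV, h1, h2⟩ := exists_mem_nhds_isClosed_subset (interior_mem_nhds.2 hW)
  have c1 : ContinuousOn s.1 {q | q.2 = p.2} := ((s.2.2 p.2).comp continuous_fst).continuousOn.congr
    fun q hq => by rw [← show q.2 = p.2 from hq]; rfl
  have c2 : ContinuousOn s.1 {q | q.1 = p.1} := ((s.2.1 p.1).comp continuous_snd).continuousOn.congr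
    fun q hq => by rw [← show q.1 = p.1 from hq]; rfl
  have c : ContinuousOn s.1 (cr p) := c1.union_of_isClosed c2
    (isClosed_singleton.preimage continuous_snd) (isClosed_singleton.preimage continuous_fst)
  obtain ⟨O, o1, o2, o3⟩ := mem_nhdsWithin.1 (c p (Or.inl rfl) hV)
  have ho : IsOpen {t : S X Y | MapsTo t.1 (closure (O ∩ cr p) ∩ cr p) (interior W)} :=
    isOpen_generateFrom_of_mem ⟨p, O, _, o1, isOpen_interior, rfl⟩
  rw [mem_map]
  filter_upwards [ho.mem_nhds (x := s) fun q hq => h2 (h1.closure_subset (((c q hq.2).mono inter_subset_right).mem_closure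
      hq.1 o3))] with t ht
  exact interior_subset (s := W) (ht ⟨subset_closure ⟨o2, Or.inl rfl⟩, Or.inl rfl⟩)

lemma met [SeparableSpace X] [SeparableSpace Y] {K : Type*} [TopologicalSpace K] [CompactSpace K]
    (e : K → S X Y) (hi : Function.Injective e) (hc : ∀ p, Continuous fun k => (e k).1 p) :
    MetrizableSpace K := by
  obtain ⟨A, a1, a2⟩ := exists_countable_dense X
  obtain ⟨B, b1, b2⟩ := exists_countable_dense Y
  have := a1.to_subtype
  have := b1.to_subtype
  have h : Continuous fun k (q : A × B) => (e k).1 (q.1, q.2) := continuous_pi fun q => hc _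
  refine (h.isClosedEmbedding fun k l h => hi (Subtype.ext (funext fun p => ?_))).isEmbedding.metrizableSpace
  refine congrFun (Continuous.ext_on a2 ((e k).2.2 p.2) ((e l).2.2 p.2) fun x hx => ?_) p.1
  exact congrFun (Continuous.ext_on b2 ((e k).2.1 x) ((e l).2.1 x) fun y hy =>
    congrFun h (⟨x, hx⟩, ⟨y, hy⟩)) p.2

end Pool.Agent.Lib.helper6.Cross
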