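import Mathlib

set_option autoImplicit false

namespace Pool.Agent.Lib.helper6.Gamma

open Finset

theorem gamma_equiv {n m : ℕ} (G : SimpleGraph (Fin n)) (σ : Fin m → Finset (Fin n))
    (h1 : ∀ i, (σ i).card = 3 ∧ ∀ v, v ∈ σ i ∨ ∃ u ∈ σ i, G.Adj u v)
    (h2 : ∀ a b : Fin n, ¬ ∀ v, v = a ∨ v = b ∨ G.Adj a v ∨ G.Adj b v)
    (h3 : ∀ a b c : Fin n, (∀ v, v = a ∨ v = b ∨ v = c ∨ G.Adj a v ∨ G.Adj b v ∨ G.Adj c v) →
      ∃ i, σ i = {a, b, c})
    (h4 : Function.Injective σ) (i0 : Fin m) (v0 : Fin n) :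
    ∃ e : Fin m ≃ {S : Finset (Fin n) // (∀ v, v ∈ S ∨ ∃ u ∈ S, G.Adj u v) ∧
      ∀ T : Finset (Fin n), (∀ v, v ∈ T ∨ ∃ u ∈ T, G.Adj u v) → S.card ≤ T.card},
      ∀ i, (e i).1 = σ i := by
  have hmin : ∀ T : Finset (Fin n), (∀ v, v ∈ T ∨ ∃ u ∈ T, G.Adj u v) → 3 ≤ T.card := by
    intro T hT
    by_contra hlt
    have hsub : ∃ a b, T ⊆ {a, b} := by
      have : T.card = 0 ∨ T.card = 1 ∨ T.card = 2 := by omega
      rcases this with h | h | h
      · exact ⟨v0, v0, by rw [card_eq_zero.mp h]; exact empty_subset _⟩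
      · obtain ⟨a, rfl⟩ := card_eq_one.mp h
        exact ⟨a, a, by simp⟩
      · obtain ⟨a, b, -, rfl⟩ := card_eq_two.mp h
        exact ⟨a, b, subset_rfl⟩
    obtain ⟨a, b, hab⟩ := hsub
    apply h2 a b
    intro v
    rcases hT v with h | ⟨u, hu, huv⟩
    · have := hab h
      simp only [mem_insert, mem_singleton] at this
      tauto
    · have := hab hu
      simp only [mem_insert, mem_singleton] at this
      rcases this with rfl | rfl <;> tauto
  let f : Fin m → {S : Finset (Fin n) // (∀ v, v ∈ S ∨ ∃ u ∈ S, G.Adj u v) ∧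
      ∀ T : Finset (Fin n), (∀ v, v ∈ T ∨ ∃ u ∈ T, G.Adj u v) → S.card ≤ T.card} :=
    fun i => ⟨σ i, (h1 i).2, fun T hT => by rw [(h1 i).1]; exact hmin T hT⟩
  have hf : Function.Bijective f := by
    constructor
    · intro i j h
      exact h4 (congrArg Subtype.val h)
    · rintro ⟨S, hS1, hS2⟩
      have hc : S.card = 3 := by
        have a1 := hS2 (σ i0) (h1 i0).2
        have a2 := hmin S hS1
        rw [(h1 i0).1] at a1
        omega
      obtain ⟨a, b, c, -, -, -, rfl⟩ := card_eq_three.mp hc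
      obtain ⟨i, hi⟩ := h3 a b c (by
        intro v
        rcases hS1 v with h | ⟨u, hu, huv⟩
        · simp only [mem_insert, mem_singleton] at h
          tauto
        · simp only [mem_insert, mem_singleton] at hu
          rcases hu with rfl | rfl | rfl <;> tauto)
      exact ⟨i, Subtype.ext hi⟩
  exact ⟨Equiv.ofBijective f hf, fun i => rfl⟩

def m0 : List ℕ := [2056, 8220, 8218, 10263, 8206, 4544, 6048, 4448, 4320, 1088, 16960, 16393, 25056, 20510, 15360]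

def m1 : List ℕ := [16512, 24612, 24610, 5648, 5896, 24838, 6528, 16705, 240, 5144, 4632, 4160, 3672, 16422, 8359]

def G0 : SimpleGraph (Fin 15) where
  Adj a b := (m0.getD a.val 0).testBit b.val = true
  symm := ⟨by decide +kernel⟩
  loopless := ⟨by decide +kernel⟩

def G1 : SimpleGraph (Fin 15) where
  Adj a b := (m1.getD a.val 0).testBit b.val = true
  symm := ⟨by decide +kernel⟩
  loopless := ⟨by decide +kernel⟩

instance : DecidableRel G0.Adj := fun a b =>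
  inferInstanceAs (Decidable ((m0.getD a.val 0).testBit b.val = true))

instance : DecidableRel G1.Adj := fun a b =>
  inferInstanceAs (Decidable ((m1.getD a.val 0).testBit b.val = true))

def s0 : Fin 15 → Finset (Fin 15) := ![{0, 6, 13}, {1, 6, 11}, {2, 6, 11}, {3, 5, 10}, {3, 6, 10}, {3, 6, 11}, {3, 6, 12}, {3, 6, 13}, {3, 6, 14}, {3, 7, 10}, {3, 8, 10}, {3, 9, 12}, {3, 10, 12}, {4, 6, 11}, {6, 11, 13}]

def s1 : Fin 15 → Finset (Fin 15) := ![{4, 11, 14}, {3, 6, 14}, {6, 9, 14}, {4, 6, 14}, {6, 10, 14}, {1, 7, 12}, {5, 7, 12}, {2, 7, 12}, {7, 12, 13}, {0, 5, 12}, {5, 12, 14}, {4, 12, 14}, {7, 12, 14}, {6, 12, 14}, {8, 12, 14}]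

theorem adj01 : ∀ a b, G1.Adj a b ↔
    ∃ u v, u ∈ s0 a ∧ v ∉ s0 a ∧ G0.Adj u v ∧ s0 b = insert v ((s0 a).erase u) := by
  decide +kernel

theorem adj10 : ∀ a b, G0.Adj a b ↔
    ∃ u v, u ∈ s1 a ∧ v ∉ s1 a ∧ G1.Adj u v ∧ s1 b = insert v ((s1 a).erase u) := by
  decide +kernel

theorem step01 : ∃ e : Fin 15 ≃ {S : Finset (Fin 15) // (∀ v, v ∈ S ∨ ∃ u ∈ S, G0.Adj u v) ∧
      ∀ T : Finset (Fin 15), (∀ v, v ∈ T ∨ ∃ u ∈ T, G0.Adj u v) → S.card ≤ T.card},
    ∀ a b, G1.Adj a b ↔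
      ∃ u v, u ∈ (e a).1 ∧ v ∉ (e a).1 ∧ G0.Adj u v ∧ (e b).1 = insert v ((e a).1.erase u) := by
  obtain ⟨e, he⟩ := gamma_equiv G0 s0 (by decide +kernel) (by decide +kernel) (by decide +kernel)
    (by decide +kernel) 0 0
  refine ⟨e, fun a b => ?_⟩
  rw [he, he]
  exact adj01 a b

theorem step10 : ∃ e : Fin 15 ≃ {S : Finset (Fin 15) // (∀ v, v ∈ S ∨ ∃ u ∈ S, G1.Adj u v) ∧
      ∀ T : Finset (Fin 15), (∀ v, v ∈ T ∨ ∃ u ∈ T, G1.Adj u v) → S.card ≤ T.card},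
    ∀ a b, G0.Adj a b ↔
      ∃ u v, u ∈ (e a).1 ∧ v ∉ (e a).1 ∧ G1.Adj u v ∧ (e b).1 = insert v ((e a).1.erase u) := by
  obtain ⟨e, he⟩ := gamma_equiv G1 s1 (by decide +kernel) (by decide +kernel) (by decide +kernel)
    (by decide +kernel) 0 0
  refine ⟨e, fun a b => ?_⟩
  rw [he, he]
  exact adj10 a b

theorem not_iso : IsEmpty (G1 ≃g G0) := by
  refine ⟨fun φ => ?_⟩
  have h1 : ∀ v, G1.degree v ≠ 3 := by decide +kernel
  have h2 : G0.degree 10 = 3 := by decide +kernel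
  have h3 := φ.degree_eq (φ.symm 10)
  rw [φ.apply_symm_apply, h2] at h3
  exact h1 _ h3.symm

end Pool.Agent.Lib.helper6.Gamma
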