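import Mathlib

set_option autoImplicit false

namespace Pool.Agent.Lib.helper6.IntK

open Polynomial

variable {D K B : Type*} [CommRing D] [IsDomain D] [Field K] [Algebra D K] [IsFractionRing D K]
  [Ring B] [Algebra D B] [Algebra K B] [IsScalarTower D K B]

omit [IsDomain D] in
lemma val [IsIntegrallyClosed D] [Nontrivial B] (f : K[X]) (d : D)
    (h : IsIntegral D (aeval (algebraMap D B d) f)) :
    ∃ e : D, algebraMap D K e = f.eval (algebraMap D K d) := by
  rw [IsScalarTower.algebraMap_apply D K B, aeval_algebraMap_apply, coe_aeval_eq_eval,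
    isIntegral_algebraMap_iff (algebraMap K B).injective] at h
  exact IsIntegrallyClosed.algebraMap_eq_of_integral h

omit [IsDomain D] [IsFractionRing D K] in
lemma vand (f : K[X]) (h : ∀ d : D, ∃ e : D, algebraMap D K e = f.eval (algebraMap D K d))
    {m : ℕ} (hm : f.natDegree < m) (a : Fin m → D) :
    ∃ g : D[X], g.map (algebraMap D K) = C (algebraMap D K (Matrix.vandermonde a).det) * f := by
  rw [← mem_lifts, lifts_iff_coeff_lifts]
  intro n
  by_cases hn : n < m
  · choose e he using h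
    have h1 : ((Matrix.vandermonde a).map (algebraMap D K)).mulVec (fun j : Fin m => f.coeff j) =
        fun i => algebraMap D K (e (a i)) := by
      ext i
      rw [he, eval_eq_sum_range' hm, Finset.sum_range]
      simp [Matrix.mulVec, dotProduct, mul_comm]
    have h2 := congrArg (fun v => ((Matrix.vandermonde a).adjugate.map (algebraMap D K)).mulVec v ⟨n, hn⟩) h1
    simp only [Matrix.mulVec_mulVec] at h2
    rw [← Matrix.map_mul, Matrix.adjugate_mul] at h2
    refine ⟨(Matrix.vandermonde a).adjugate.mulVec (fun i => e (a i)) ⟨n, hn⟩, ?_⟩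
    rw [coeff_C_mul, RingHom.map_mulVec]
    refine h2.symm.trans ?_
    rw [Matrix.smul_one_eq_diagonal, Matrix.diagonal_map (map_zero _), Matrix.mulVec_diagonal]
  · exact ⟨0, by simp [coeff_eq_zero_of_natDegree_lt (show f.natDegree < n by omega)]⟩

omit [IsDomain D] in
lemma mu [IsIntegrallyClosed D] [Nontrivial B] [Module.Finite K B] (y : B) (hy : IsIntegral D y) :
    ∃ μ : D[X], μ.Monic ∧ μ.natDegree = Module.finrank K B ∧ aeval y μ = 0 := by
  obtain ⟨p, hp, h⟩ := hy
  have hK : IsIntegral K y := Algebra.IsIntegral.isIntegral y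
  obtain ⟨g, hg⟩ := IsIntegrallyClosed.eq_map_mul_C_of_dvd K hp
    (minpoly.dvd K y (p := p.map (algebraMap D K)) (by rw [aeval_map_algebraMap]; exact h))
  rw [(minpoly.monic hK).leadingCoeff, C_1, mul_one] at hg
  have inj := IsFractionRing.injective D K
  have m : g.Monic := monic_of_injective inj (hg ▸ minpoly.monic hK)
  have d : g.natDegree ≤ Module.finrank K B := by
    rw [← natDegree_map_eq_of_injective inj, hg]; exact minpoly.natDegree_le y
  have : Nontrivial D := (algebraMap D K).domain_nontrivial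
  refine ⟨X ^ (Module.finrank K B - g.natDegree) * g, (monic_X_pow _).mul m, ?_, ?_⟩
  · rw [(monic_X_pow _).natDegree_mul m, natDegree_X_pow]; omega
  · rw [map_mul, ← aeval_map_algebraMap K y g, hg, minpoly.aeval, mul_zero]

omit [IsDomain D] in
theorem key [IsIntegrallyClosed D] [Nontrivial B] [Module.Finite K B] (A : Subalgebra D B)
    (f : K[X]) (hf : ∀ a ∈ A, IsIntegral D (aeval a f)) :
    ∃ G : ℤ[X], G.Monic ∧ 0 < G.degree ∧ ∀ a ∈ A, aeval (aeval a f) G ∈ A := by
  set n := Module.finrank K B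
  let I : Ideal D :=
    { carrier := {c | ∀ a ∈ A, c • aeval a f ∈ A}
      add_mem' := fun h1 h2 a ha => by rw [add_smul]; exact A.add_mem (h1 a ha) (h2 a ha)
      zero_mem' := fun a _ => by simp
      smul_mem' := fun c x h a ha => by rw [smul_eq_mul, mul_smul]; exact A.smul_mem (h a ha) c }
  have hI : ∀ a ∈ A, ∀ i, ∀ c ∈ I ^ i, c • aeval a f ^ i ∈ A := fun a ha i => by
    induction i with
    | zero => exact fun c _ => by rw [pow_zero]; exact A.smul_mem A.one_mem c
    | succ i ih =>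
      intro c hc
      rw [pow_succ] at hc
      refine Submodule.mul_induction_on hc (fun u hu v hv => ?_) fun u v hu hv => ?_
      · rw [pow_succ, ← smul_mul_smul_comm]; exact A.mul_mem (ih u hu) (hv a ha)
      · rw [add_smul]; exact A.add_mem hu hv
  let W : ℤ[X] := ∏ i : Fin (f.natDegree + 1), ∏ j ∈ Finset.Ioi i, (X ^ (j : ℕ) - X ^ (i : ℕ))
  have hW : W.Monic := monic_prod_of_monic _ _ fun i _ => monic_prod_of_monic _ _ fun j hj =>
    monic_X_pow_sub (by rw [degree_X_pow]; exact_mod_cast Finset.mem_Ioi.1 hj)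
  have hW2 : ∀ x : D, aeval x W ∈ I := fun x a ha => by
    obtain ⟨g, hg⟩ := vand f (fun d => val f d (hf _ (A.algebraMap_mem d))) (Nat.lt_succ_self _)
      fun i => x ^ (i : ℕ)
    have := congrArg (aeval a) hg
    rw [aeval_map_algebraMap, map_mul, aeval_C, ← IsScalarTower.algebraMap_apply,
      ← Algebra.smul_def, Matrix.det_vandermonde] at this
    simp only [W, map_prod, map_sub, map_pow, aeval_X]
    rw [← this]
    exact Algebra.adjoin_le (S := A) (by simpa using ha) (aeval_mem_adjoin_singleton D a)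
  have : Algebra.IsIntegral ℤ (A → D ⧸ I ^ n) := ⟨fun x => ⟨W ^ n, hW.pow n, by
    ext a
    obtain ⟨y, hy⟩ := Ideal.Quotient.mk_surjective (x a)
    have e1 := aeval_algHom_apply (Pi.evalRingHom (fun _ : A => D ⧸ I ^ n) a).toIntAlgHom x (W ^ n)
    have e2 := aeval_algHom_apply (Ideal.Quotient.mk (I ^ n)).toIntAlgHom y (W ^ n)
    refine e1.symm.trans ?_
    change aeval (x a) _ = 0
    rw [← hy]
    refine e2.trans (Ideal.Quotient.eq_zero_iff_mem.2 ?_)
    rw [map_pow]
    exact Ideal.pow_mem_pow (hW2 y) n⟩⟩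
  choose μ m1 m2 m3 using fun a : A => mu (K := K) _ (hf a a.2)
  let M : (A → D ⧸ I ^ n)[X] := X ^ n + ∑ i ∈ Finset.range n,
    C (fun a => Ideal.Quotient.mk _ ((μ a).coeff i)) * X ^ i
  have hM : M.Monic := by
    refine monic_X_pow_add ?_
    rw [Finset.sum_range]
    exact degree_sum_fin_lt _
  obtain ⟨G, g1, g2⟩ : IsIntegral ℤ (AdjoinRoot.root M) :=
    isIntegral_trans (A := A → D ⧸ I ^ n) _ (AdjoinRoot.isIntegral_root' hM)
  have g3 : M ∣ (G * X).map (algebraMap ℤ _) := by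
    rw [← AdjoinRoot.mk_eq_zero, ← AdjoinRoot.aeval_eq, aeval_map_algebraMap, map_mul,
      aeval_def _ G, g2, zero_mul]
  refine ⟨G * X, g1.mul monic_X, ?_, fun a ha => ?_⟩
  · rw [degree_mul, degree_X, degree_eq_natDegree g1.ne_zero]
    exact_mod_cast Nat.succ_pos _
  have g4 := map_dvd (Pi.evalRingHom (fun _ : A => D ⧸ I ^ n) ⟨a, ha⟩) g3
  have g5 : M.map (Pi.evalRingHom (fun _ : A => D ⧸ I ^ n) ⟨a, ha⟩) =
      (μ ⟨a, ha⟩).map (Ideal.Quotient.mk _) := by
    conv_rhs => rw [(m1 ⟨a, ha⟩).as_sum, m2]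
    simp [M, Polynomial.map_sum, n]
  set P := (G * X).map (algebraMap ℤ D)
  have g6 : (P %ₘ μ ⟨a, ha⟩).map (Ideal.Quotient.mk (I ^ n)) = 0 := by
    rw [map_modByMonic _ (m1 _), modByMonic_eq_zero_iff_dvd ((m1 _).map _), ← g5]
    convert g4 using 1
    simp only [P, map_map]
    congr 1
  rw [← aeval_map_algebraMap D, ← aeval_modByMonic_eq_self_of_root (m3 ⟨a, ha⟩),
    aeval_eq_sum_range]
  refine A.sum_mem fun i hi => hI a ha i _ (Ideal.pow_le_pow_right (n := n) ?_ ?_)
  · have := natDegree_modByMonic_le P (m1 ⟨a, ha⟩)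
    have := m2 ⟨a, ha⟩
    have : i < (P %ₘ μ ⟨a, ha⟩).natDegree + 1 := Finset.mem_range.1 hi
    omega
  · rw [← Ideal.Quotient.eq_zero_iff_mem, ← coeff_map, g6, coeff_zero]

/-- the example: `D = ℚ[t]` -/
lemma poly (K : Type*) [Field K] [Algebra ℚ[X] K] (f : K[X])
    (h : ∀ d : ℚ[X], ∃ e : ℚ[X], algebraMap _ K e = f.eval (algebraMap _ K d)) :
    ∃ g : ℚ[X][X], g.map (algebraMap _ K) = f := by
  obtain ⟨g, hg⟩ := vand f h (Nat.lt_succ_self _) fun i => C ((i : ℕ) : ℚ)
  have h1 : (Matrix.vandermonde fun i : Fin (f.natDegree + 1) => ((i : ℕ) : ℚ)).det ≠ 0 :=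
    Matrix.det_vandermonde_ne_zero_iff.2 fun a b h => Fin.ext (by exact_mod_cast h)
  have h2 : (Matrix.vandermonde fun i : Fin (f.natDegree + 1) => (C ((i : ℕ) : ℚ) : ℚ[X])).det =
      C (Matrix.vandermonde fun i : Fin (f.natDegree + 1) => ((i : ℕ) : ℚ)).det := by
    simp only [Matrix.det_vandermonde, map_prod, map_sub]
  rw [h2] at hg
  refine ⟨C (C (Matrix.vandermonde fun i : Fin (f.natDegree + 1) => ((i : ℕ) : ℚ)).det⁻¹) * g, ?_⟩
  rw [Polynomial.map_mul, hg, map_C, ← mul_assoc, ← C_mul, ← map_mul, ← C_mul, inv_mul_cancel₀ h1]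
  simp

open TensorProduct Algebra.TensorProduct in
lemma ex (K : Type*) [Field K] [Algebra ℚ[X] K] [IsFractionRing ℚ[X] K] :
    ∃ b : K ⊗[ℚ[X]] QuadraticAlgebra ℚ[X] (-X ^ 2) 0, b * b = -1 ∧ IsIntegral ℚ[X] b ∧
      ∀ a, includeRight (R := ℚ[X]) a ≠ b := by
  have h0 : algebraMap ℚ[X] K X ≠ 0 := by simp
  have h : ((algebraMap ℚ[X] K X)⁻¹ ⊗ₜ[ℚ[X]] (QuadraticAlgebra.omega : QuadraticAlgebra ℚ[X] (-X ^ 2) 0)) *
      ((algebraMap ℚ[X] K X)⁻¹ ⊗ₜ[ℚ[X]] QuadraticAlgebra.omega) = -1 := by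
    rw [tmul_mul_tmul, QuadraticAlgebra.omega_mul_omega_eq_add, zero_smul, add_zero, tmul_smul,
      smul_tmul', Algebra.smul_def, one_def, ← neg_tmul]
    congr 1
    simp only [map_neg, map_pow]
    field_simp
  refine ⟨_, h, ⟨X ^ 2 + 1, by monicity!, by simp [sq, h]⟩, fun a e => ?_⟩
  have e2 : includeRight (R := ℚ[X]) (A := K) ((X : ℚ[X]) • a) = includeRight QuadraticAlgebra.omega := by
    rw [map_smul, e, smul_tmul', Algebra.smul_def, mul_inv_cancel₀ h0, includeRight_apply]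
  have := congrArg (fun z => (QuadraticAlgebra.im z).eval 0)
    (includeRight_injective (IsFractionRing.injective ℚ[X] K) e2)
  simp at this

end Pool.Agent.Lib.helper6.IntK
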