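import Mathlib

set_option autoImplicit false

namespace Pool.Agent.Lib.helper6.Lor

open Filter Topology Projectivization Matrix

section defs
variable {n : ℕ}

/-- `B` is an admissible Gram matrix for the Coxeter matrix `M` (`0` encodes `∞`) -/
def IsCox (M : CoxeterMatrix (Fin n)) (B : Matrix (Fin n) (Fin n) ℝ) : Prop :=
  B.IsSymm ∧ ∀ s t, (M s t ≠ 0 → B s t = -Real.cos (Real.pi / M s t)) ∧ (M s t = 0 → B s t ≤ -1)

/-- signature `(n-1,1)` -/
def Lorentzian (B : Matrix (Fin n) (Fin n) ℝ) : Prop :=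
  ∃ (P : (Fin n → ℝ) ≃ₗ[ℝ] (Fin n → ℝ)) (i₀ : Fin n),
    ∀ x, toBilin' B x x = ∑ i, (if i = i₀ then -1 else 1) * P x i ^ 2

/-- the Coxeter group in its geometric representation -/
def W (B : Matrix (Fin n) (Fin n) ℝ) : Subgroup ((Fin n → ℝ) ≃ₗ[ℝ] (Fin n → ℝ)) :=
  Subgroup.closure {g | ∃ s, ∀ x, g x = x - (2 * toBilin' B (Pi.single s 1) x) • Pi.single s 1}

/-- real projective space with the quotient topology -/
abbrev PV (n : ℕ) := Projectivization ℝ (Fin n → ℝ)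

instance : TopologicalSpace (PV n) :=
  inferInstanceAs (TopologicalSpace (Quotient (projectivizationSetoid ℝ (Fin n → ℝ))))

end defs

section top
variable {n : ℕ}

lemma tend {α : Type*} {l : Filter α} {u : α → Fin n → ℝ} {v : Fin n → ℝ} (hu : ∀ a, u a ≠ 0)
    (hv : v ≠ 0) (h : Tendsto u l (𝓝 v)) : Tendsto (fun a => mk ℝ (u a) (hu a)) l (𝓝 (mk ℝ v hv)) :=
  (continuous_quotient_mk' (s := projectivizationSetoid ℝ _).tendsto ⟨v, hv⟩).comp
    (tendsto_subtype_rng.2 h : Tendsto (fun a => (⟨u a, hu a⟩ : {v : Fin n → ℝ // v ≠ 0})) l _)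

lemma proj (v : Fin n → ℝ) : ∃ π : PV n → Fin n → ℝ, Continuous π ∧
    ∀ x hx, π (mk ℝ x hx) = ((x ⬝ᵥ v) / (x ⬝ᵥ x)) • x := by
  refine ⟨Projectivization.lift (fun x => ((x.1 ⬝ᵥ v) / (x.1 ⬝ᵥ x.1)) • x.1) ?_,
    Continuous.quotient_lift ?_ _, fun _ _ => rfl⟩
  · rintro ⟨a, ha⟩ ⟨b, hb⟩ t (rfl : a = t • b)
    have : t ≠ 0 := by rintro rfl; simp at ha
    have : b ⬝ᵥ b ≠ 0 := by simpa using hb
    simp only [smul_dotProduct, dotProduct_smul, smul_smul, smul_eq_mul]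
    congr 1; field_simp
  · have : Continuous fun x : {v : Fin n → ℝ // v ≠ 0} => (x.1 ⬝ᵥ v) / (x.1 ⬝ᵥ x.1) :=
      Continuous.div (by fun_prop) (by fun_prop) fun x => by simpa using x.2
    exact this.smul continuous_subtype_val

lemma seq {α : Type*} {l : Filter α} {u : α → Fin n → ℝ} {v : Fin n → ℝ} {hu : ∀ a, u a ≠ 0}
    {hv : v ≠ 0} (h : Tendsto (fun a => mk ℝ (u a) (hu a)) l (𝓝 (mk ℝ v hv))) :
    ∃ c : α → ℝ, Tendsto (fun a => c a • u a) l (𝓝 v) := by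
  obtain ⟨π, h1, h2⟩ := proj v
  have := (h1.tendsto _).comp h
  rw [h2, div_self (by simpa using hv), one_smul] at this
  exact ⟨_, this.congr fun a => h2 _ _⟩

lemma fin_int (K : ℝ) : {z : Fin n → ℝ | (∀ i, ∃ m : ℤ, z i = m) ∧ ‖z‖ ≤ K}.Finite := by
  refine (Set.Finite.pi' fun _ => (Set.finite_Icc (-⌈K⌉) ⌈K⌉).image (Int.cast : ℤ → ℝ)).subset
    fun z ⟨h1, h2⟩ i => ?_
  obtain ⟨m, hm⟩ := h1 i
  have := abs_le.1 ((norm_le_pi_norm z i).trans (h2.trans (Int.le_ceil K)))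
  rw [hm] at this
  exact ⟨m, ⟨by exact_mod_cast this.1, by exact_mod_cast this.2⟩, hm.symm⟩

lemma bound {α : Type*} {l : Filter α} (B : Matrix (Fin n) (Fin n) ℝ) {u : α → Fin n → ℝ}
    {v : Fin n → ℝ} {c : α → ℝ} (h : Tendsto (fun a => c a • u a) l (𝓝 v)) (hv : toBilin' B v v ≠ 0)
    {K : ℝ} (hK : ∀ a, |toBilin' B (u a) (u a)| ≤ K) : ∃ L, ∀ᶠ a in l, ‖u a‖ ≤ L := by
  have h1 : Tendsto (fun a => |toBilin' B (c a • u a) (c a • u a)|) l (𝓝 |toBilin' B v v|) := by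
    simp only [toBilin'_apply]
    exact (Continuous.tendsto (f := fun x : Fin n → ℝ => |∑ i, ∑ j, x i * B i j * x j|)
      (by fun_prop) v).comp h
  have p := abs_pos.2 hv
  refine ⟨(‖v‖ + 1) ^ 2 * K / (|toBilin' B v v| / 2) + 1, ?_⟩
  filter_upwards [h1.eventually (lt_mem_nhds (half_lt_self p)),
    h.norm.eventually (gt_mem_nhds (lt_add_one _))] with a a1 a2
  simp only [map_smul, LinearMap.smul_apply, smul_eq_mul, abs_mul, norm_smul, Real.norm_eq_abs] at a1 a2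
  have : ‖u a‖ ^ 2 ≤ (‖v‖ + 1) ^ 2 * K / (|toBilin' B v v| / 2) := by
    rw [le_div_iff₀ (by positivity)]
    have := hK a
    calc _ ≤ ‖u a‖ ^ 2 * (|c a| * (|c a| * K)) := by gcongr; exact a1.le.trans (by gcongr)
      _ = (|c a| * ‖u a‖) ^ 2 * K := by ring
      _ ≤ _ := by gcongr; exact (abs_nonneg _).trans this
  nlinarith [norm_nonneg (u a)]

lemma light (B : Matrix (Fin n) (Fin n) ℝ) {A : Set (PV n)} {K : ℝ}
    (hA : ∀ a ∈ A, ∃ z hz, a = mk ℝ z hz ∧ (∀ i, ∃ m : ℤ, z i = m) ∧ |toBilin' B z z| ≤ K)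
    {v : Fin n → ℝ} {hv : v ≠ 0} (h : AccPt (mk ℝ v hv) (𝓟 A)) : toBilin' B v v = 0 := by
  by_contra c
  rw [accPt_iff_clusterPt, inf_principal, ClusterPt, ← Subtype.range_coe (s := _ ∩ _),
    ← Filter.map_comap, map_neBot_iff] at h
  choose z hz h1 h2 h3 using fun a : ({mk ℝ v hv}ᶜ ∩ A : Set _) => hA a a.2.2
  have t : Tendsto (fun a => mk ℝ (z a) (hz a)) (comap Subtype.val (𝓝 (mk ℝ v hv))) (𝓝 (mk ℝ v hv)) :=
    tendsto_comap.congr h1
  obtain ⟨d, hd⟩ := seq t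
  obtain ⟨L, hL⟩ := bound B hd c h3
  obtain ⟨π, p1, p2⟩ := proj v
  have := (p1.tendsto _).comp t
  rw [p2, div_self (by simpa using hv), one_smul] at this
  have f := ((fin_int (n := n) L).image fun x => ((x ⬝ᵥ v) / (x ⬝ᵥ x)) • x).sdiff (t := {v})
  obtain ⟨a, a1, a2⟩ := (hL.and (this.eventually (f.isClosed.isOpen_compl.mem_nhds (by simp)))).exists
  refine a2 ⟨⟨z a, ⟨h2 a, a1⟩, (p2 _ _).symm⟩, fun e => a.2.1 ?_⟩
  rw [h1 a]
  exact ((mk_eq_mk_iff' ..).2 ⟨_, (p2 _ _).symm.trans e⟩).symm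

end top

noncomputable def B0 : Matrix (Fin 3) (Fin 3) ℝ := !![1, -2⁻¹, 0; -2⁻¹, 1, -1; 0, -1, 1]

def M0 : CoxeterMatrix (Fin 3) := ⟨!![1, 3, 2; 3, 1, 0; 2, 0, 1], by decide, by decide, by decide⟩

def c (p q r : ℝ) : Fin 3 → ℝ := ![-p, -p - r, q - p - r]

lemma cox : IsCox M0 B0 ∧ Lorentzian B0 := by
  refine ⟨⟨by ext i j; fin_cases i <;> fin_cases j <;> rfl, fun s t => ?_⟩,
    (Matrix.toLin'OfInv (M := !![0, -1, 1; 0, 2⁻¹, 0; 1, -2⁻¹, 0]) (M' := !![0, 1, 1; 0, 2, 0; 1, 2, 0])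
      (by ext i j; fin_cases i <;> fin_cases j <;> simp) (by ext i j; fin_cases i <;> fin_cases j <;> simp)).symm,
    1, fun x => ?_⟩
  · fin_cases s <;> fin_cases t <;> simp [M0, B0]
  · simp [toBilin'_apply, B0, Fin.sum_univ_three, vecHead, vecTail]; ring

lemma ec (x : Fin 3 → ℝ) : ∃ p q r, x = c p q r :=
  ⟨-x 0, x 2 - x 1, x 0 - x 1, by ext i; fin_cases i <;> simp [c]; ring⟩

lemma cinj {p q r p' q' r' : ℝ} : c p q r = c p' q' r' ↔ p = p' ∧ q = q' ∧ r = r' := by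
  simp only [c, funext_iff, Fin.forall_fin_succ]
  simp
  grind

lemma cform (p q r p' q' r' : ℝ) : toBilin' B0 (c p q r) (c p' q' r') = q * q' - (p * r' + p' * r) / 2 := by
  simp [toBilin'_apply, B0, Fin.sum_univ_three, c]; ring

lemma csmul (t p q r : ℝ) : t • c p q r = c (t * p) (t * q) (t * r) := by
  ext i; fin_cases i <;> simp [c] <;> ring

lemma cadd (p q r p' q' r' : ℝ) : c p q r + c p' q' r' = c (p + p') (q + q') (r + r') := by
  ext i; fin_cases i <;> simp [c] <;> ring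

lemma c0 : (0 : Fin 3 → ℝ) = c 0 0 0 := by ext i; fin_cases i <;> simp [c]

def Act (w : (Fin 3 → ℝ) ≃ₗ[ℝ] (Fin 3 → ℝ)) (a b e d : ℤ) : Prop := ∀ p q r,
  w (c p q r) = c (a ^ 2 * p + 2 * a * b * q + b ^ 2 * r) (a * e * p + (a * d + b * e) * q + b * d * r)
    (e ^ 2 * p + 2 * e * d * q + d ^ 2 * r)

lemma Act.mul {w w' : _} {a b e d a' b' e' d' : ℤ} (h : Act w a b e d) (h' : Act w' a' b' e' d') :
    Act (w * w') (a * a' + b * e') (a * b' + b * d') (e * a' + d * e') (e * b' + d * d') := by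
  intro p q r
  rw [LinearEquiv.mul_apply, h', h, cinj]
  push_cast
  refine ⟨by ring, by ring, by ring⟩

lemma Act.inv {w : _} {a b e d : ℤ} (h : Act w a b e d) (D : (a * d - b * e) ^ 2 = 1) :
    Act w⁻¹ d (-b) (-e) a := by
  intro p q r
  have : ((a : ℝ) * d - b * e) ^ 2 = 1 := by exact_mod_cast D
  apply w.injective
  rw [h, LinearEquiv.coe_inv, w.apply_symm_apply, cinj]
  push_cast
  exact ⟨by linear_combination -p * this, by linear_combination -q * this, by linear_combination -r * this⟩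

lemma gen {w : (Fin 3 → ℝ) ≃ₗ[ℝ] (Fin 3 → ℝ)} {s : Fin 3}
    (h : ∀ x, w x = x - (2 * toBilin' B0 (Pi.single s 1) x) • Pi.single s 1) :
    Act w (![0, 1, 1] s) (![1, 0, 0] s) (![1, 1, 0] s) (![0, -1, -1] s) := by
  intro p q r
  rw [h]
  ext i
  fin_cases s <;> fin_cases i <;> simp [toBilin'_apply, B0, Fin.sum_univ_three, c] <;> ring

lemma act {w : _} (h : w ∈ W B0) : ∃ a b e d, (a * d - b * e) ^ 2 = 1 ∧ Act w a b e d := by
  induction h using Subgroup.closure_induction with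
  | mem w h => obtain ⟨s, h⟩ := h; exact ⟨_, _, _, _, by fin_cases s <;> simp, gen h⟩
  | one => exact ⟨1, 0, 0, 1, by simp, fun p q r => by simp⟩
  | mul x y _ _ h1 h2 =>
    obtain ⟨a, b, e, d, D, h1⟩ := h1
    obtain ⟨a', b', e', d', D', h2⟩ := h2
    exact ⟨_, _, _, _, by linear_combination (a' * d' - b' * e') ^ 2 * D + D', h1.mul h2⟩
  | inv x _ h =>
    obtain ⟨a, b, e, d, D, h⟩ := h
    exact ⟨_, _, _, _, by linear_combination D, h.inv D⟩

lemma exg (s : Fin 3) : ∃ w ∈ W B0,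
    Act w (![0, 1, 1] s) (![1, 0, 0] s) (![1, 1, 0] s) (![0, -1, -1] s) := by
  have : ∀ x, Module.reflection (x := Pi.single s 1) (f := (2 : ℝ) • toBilin' B0 (Pi.single s 1))
      (by fin_cases s <;> simp [toBilin'_apply, B0, Fin.sum_univ_three]) x = _ := fun x =>
    Module.reflection_apply _ _
  exact ⟨_, Subgroup.subset_closure ⟨s, this⟩, gen this⟩

lemma sl {a b e d : ℤ} (D : a * d - b * e = 1) : ∃ w ∈ W B0, Act w a b e d := by
  suffices ∀ g : SpecialLinearGroup (Fin 2) ℤ, ∃ w ∈ W B0, Act w (g 0 0) (g 0 1) (g 1 0) (g 1 1) from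
    this ⟨!![a, b; e, d], by simpa [det_fin_two] using D⟩
  intro g
  obtain ⟨s0, m0, h0⟩ := exg 0
  obtain ⟨s1, m1, h1⟩ := exg 1
  obtain ⟨s2, m2, h2⟩ := exg 2
  have : g ∈ Subgroup.closure {ModularGroup.S, ModularGroup.T} := by
    simp [SpecialLinearGroup.SL2Z_generators]
  induction this using Subgroup.closure_induction with
  | mem w h =>
    rcases h with rfl | rfl
    · exact ⟨_, mul_mem m0 m2, by simpa [ModularGroup.S] using h0.mul h2⟩
    · exact ⟨_, mul_mem (mul_mem (mul_mem m0 m1) m2) m0, by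
        simpa [ModularGroup.T] using ((h0.mul h1).mul h2).mul h0⟩
  | one => exact ⟨1, one_mem _, fun p q r => by simp⟩
  | mul x y _ _ h1 h2 =>
    obtain ⟨w, m, h1⟩ := h1
    obtain ⟨w', m', h2⟩ := h2
    exact ⟨_, mul_mem m m', by simpa [Matrix.mul_apply] using h1.mul h2⟩
  | inv x _ h =>
    obtain ⟨w, m, h⟩ := h
    refine ⟨_, inv_mem m, ?_⟩
    rw [SpecialLinearGroup.SL2_inv_expl]
    exact h.inv (by rw [← det_fin_two, x.det_coe]; rfl)

lemma pres {w : _} (h : w ∈ W B0) (x y : Fin 3 → ℝ) : toBilin' B0 (w x) (w y) = toBilin' B0 x y := by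
  obtain ⟨a, b, e, d, D, h⟩ := act h
  obtain ⟨p, q, r, rfl⟩ := ec x
  obtain ⟨p', q', r', rfl⟩ := ec y
  have : ((a : ℝ) * d - b * e) ^ 2 = 1 := by exact_mod_cast D
  rw [h, h, cform, cform]
  linear_combination (q * q' - (p * r' + p' * r) / 2) * this

lemma wint {w : _} (h : w ∈ W B0) (p q r : ℤ) (i : Fin 3) : ∃ m : ℤ, w (c p q r) i = m := by
  obtain ⟨a, b, e, d, -, h⟩ := act h
  rw [h]
  norm_cast
  fin_cases i <;> simp only [c] <;> norm_cast <;> exact ⟨_, rfl⟩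

lemma cc {α : Type*} {l : Filter α} {p q r : α → ℝ} {p' q' r' : ℝ} (hp : Tendsto p l (𝓝 p'))
    (hq : Tendsto q l (𝓝 q')) (hr : Tendsto r l (𝓝 r')) :
    Tendsto (fun a => c (p a) (q a) (r a)) l (𝓝 (c p' q' r')) :=
  (Continuous.tendsto (f := fun x : ℝ × ℝ × ℝ => c x.1 x.2.1 x.2.2) (by unfold c; fun_prop)
    (p', q', r')).comp (hp.prodMk_nhds (hq.prodMk_nhds hr))

lemma cne {p q r : ℝ} (h : q * q - p * r ≠ 0) : c p q r ≠ 0 := by
  rw [c0, Ne, cinj]; rintro ⟨rfl, rfl, rfl⟩; simp at h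

lemma baire (ξ : ℝ) : ∃ (θ : ℝ) (g : ℕ → W B0),
    (Function.Injective fun k => (g k).1 • mk ℝ (c (2 * θ) 1 0) (cne (by simp))) ∧
    Tendsto (fun k => (g k).1 • mk ℝ (c (2 * θ) 1 0) (cne (by simp))) atTop
      (𝓝 (mk ℝ (c (2 * ξ) 1 0) (cne (by simp)))) := by
  let U : ℕ → Set ℝ := fun m => ⋃ g : W B0, {θ | dist (g.1 (c (2 * θ) 1 0)) (c (2 * ξ) 1 0) <
    1 / (m + 1) ∧ g.1 (c (2 * θ) 1 0) 0 - g.1 (c (2 * θ) 1 0) 1 ≠ 0}
  obtain ⟨θ, hθ⟩ : (⋂ m, U m).Nonempty := by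
    refine (dense_iInter_of_isOpen (fun m => isOpen_iUnion fun g => ?_) fun m => ?_).nonempty
    · have : Continuous fun θ : ℝ => g.1 (c (2 * θ) 1 0) :=
        g.1.toLinearMap.continuous_of_finiteDimensional.comp (by unfold c; fun_prop)
      exact (isOpen_lt (this.dist continuous_const) continuous_const).inter (isOpen_ne_fun
        (((continuous_apply 0).comp this).sub ((continuous_apply 1).comp this)) continuous_const)
    refine dense_closure.1 (Rat.denseRange_cast.mono ?_)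
    rintro _ ⟨x, rfl⟩
    obtain ⟨a, b, h⟩ := Rat.isCoprime_num_den x
    have d0 : (x.den : ℝ) ≠ 0 := by simp
    have hA : Tendsto (fun N : ℕ => ((-a + N * x.den - x.den * ξ : ℝ))⁻¹) atTop (𝓝 0) :=
      tendsto_inv_atTop_zero.comp (tendsto_atTop_add_const_right _ _ (tendsto_atTop_add_const_left _ _
        (tendsto_natCast_atTop_atTop.atTop_mul_const (by positivity))))
    have hA' : ∀ᶠ N : ℕ in atTop, (-a + N * x.den - x.den * ξ : ℝ) ≠ 0 := by
      filter_upwards [eventually_gt_atTop ⌈ξ + a / x.den⌉₊] with N hN e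
      have : ξ + a / x.den = N := by field_simp; linarith
      simp [this] at hN
    have h' : (a * x.num + b * x.den : ℝ) = 1 := by exact_mod_cast h
    refine mem_closure_of_tendsto (b := atTop) (f := fun N : ℕ =>
      x + (x.den : ℝ)⁻¹ * (-a + N * x.den - x.den * ξ : ℝ)⁻¹) (by
        simpa using (hA.const_mul (x.den : ℝ)⁻¹).const_add (x : ℝ)) ?_
    have l := cc (((hA.const_mul (2 * ξ * x.den * ξ)).const_add (2 * ξ)))
      ((hA.const_mul (2 * x.den * ξ)).const_add 1) (hA.const_mul (2 * x.den : ℝ))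
    simp only [mul_zero, add_zero] at l
    filter_upwards [hA', Metric.tendsto_nhds.1 l (1 / (m + 1)) Nat.one_div_pos_of_nat] with N h1 h2
    obtain ⟨w, hw, e⟩ := sl (a := -a + N * x.den) (b := -b - N * x.num) (e := x.den) (d := -x.num)
      (by linear_combination h)
    set D : ℝ := -a + N * x.den - x.den * ξ
    have : w (c (2 * (x + (x.den : ℝ)⁻¹ * D⁻¹)) 1 0) = c (2 * ξ + 2 * ξ * x.den * ξ * D⁻¹)
        (1 + 2 * x.den * ξ * D⁻¹) (2 * x.den * D⁻¹) := by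
      have hD : (-a + N * x.den : ℝ) = D + x.den * ξ := by simp [D]
      have hb : (-b - N * x.num : ℝ) = (-1 - (D + x.den * ξ) * x.num) / x.den := by
        rw [← hD]; field_simp; linear_combination -h'
      rw [e, cinj, Rat.cast_def]
      push_cast
      rw [hD, hb]
      refine ⟨?_, ?_, ?_⟩ <;> field_simp <;> ring
    refine Set.mem_iUnion.2 ⟨⟨w, hw⟩, ?_⟩
    simp only [Set.mem_ofPred_eq, this]
    exact ⟨h2, by simpa [c] using h1⟩
  set x := c (2 * ξ) 1 0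
  have r : ∀ v : Fin 3 → ℝ, |v 0 - v 1| ≤ 2 * dist v x := fun v => by
    have h0 := dist_le_pi_dist v x 0
    have h1 := dist_le_pi_dist v x 1
    simp only [x, c, Real.dist_eq, cons_val_zero, cons_val_one, sub_zero, abs_le] at h0 h1 ⊢
    constructor <;> linarith
  obtain ⟨g, g1, g2⟩ := exists_seq_of_forall_finset_exists
    (fun g : W B0 => g.1 (c (2 * θ) 1 0) 0 - g.1 (c (2 * θ) 1 0) 1 ≠ 0)
    (fun g h => 4 * dist (h.1 (c (2 * θ) 1 0)) x < |g.1 (c (2 * θ) 1 0) 0 - g.1 (c (2 * θ) 1 0) 1|)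
    fun s hs => by
      obtain ⟨m, hm⟩ := ((s.eventually_all).2 fun g hg => (tendsto_one_div_add_atTop_nhds_zero_nat.const_mul
        (4 : ℝ)).eventually (gt_mem_nhds (by simpa using hs g hg :
          4 * 0 < |g.1 (c (2 * θ) 1 0) 0 - g.1 (c (2 * θ) 1 0) 1|))).exists
      obtain ⟨g, h1, h2⟩ := Set.mem_iUnion.1 (Set.mem_iInter.1 hθ m)
      exact ⟨g, h2, fun h hh => lt_trans (by linarith) (hm h hh)⟩
  refine ⟨θ, g, Function.Injective.of_lt_imp_ne fun i j ij e => ?_, tend _ _ ?_⟩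
  · obtain ⟨t, ht⟩ := (mk_eq_mk_iff' ..).1 e
    change t • (g j).1 _ = (g i).1 _ at ht
    have h1 := pres (g i).2 (c (2 * θ) 1 0) (c (2 * θ) 1 0)
    have h2 := g2 i j ij
    rw [← ht] at h1 h2
    simp only [map_smul, LinearMap.smul_apply, pres (g j).2, cform, smul_eq_mul] at h1
    have : |t| = 1 := by rw [← sq_eq_sq₀ (abs_nonneg _) zero_le_one, sq_abs]; linarith
    simp only [Pi.smul_apply, smul_eq_mul, ← mul_sub, abs_mul, this] at h2
    linarith [r ((g j).1 (c (2 * θ) 1 0)), dist_nonneg (x := (g j).1 (c (2 * θ) 1 0)) (y := x)]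
  · rw [tendsto_iff_dist_tendsto_zero]
    refine squeeze_zero (fun _ => dist_nonneg) (fun n => le_geom (c := 2⁻¹)
      (u := fun k => dist ((g k).1 (c (2 * θ) 1 0)) x) (by norm_num) n fun k _ => ?_)
      (by simpa using (tendsto_pow_atTop_nhds_zero_of_lt_one (r := (2⁻¹ : ℝ)) (by norm_num)
        (by norm_num)).mul_const _)
    have := (g2 k (k + 1) k.lt_succ_self).trans_le (r _)
    linarith

lemma null {p q r : ℝ} (hr : r ≠ 0) (h : q * q - p * r ≠ 0) {v : Fin 3 → ℝ} (hv : v ≠ 0)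
    (h0 : toBilin' B0 v v = 0) :
    AccPt (mk ℝ v hv) (𝓟 {y | ∃ w ∈ W B0, y = w • mk ℝ (c p q r) (cne h)}) := by
  let K := {u | ∃ t : ℝ, t ≠ 0 ∧ ∃ w ∈ W B0, u = t • w (c p q r)}
  have k1 : ∀ (σ : ℝ) (a e : ℤ), σ ≠ 0 → IsCoprime a e →
      c (σ * a ^ 2) (σ * (a * e)) (σ * e ^ 2) ∈ closure K := by
    rintro σ a e h0 ⟨d, b, h⟩
    have t := (Continuous.tendsto (f := fun ε : ℝ => (σ / r) • c
      (a ^ 2 * p * ε ^ 2 + 2 * a * (a - b * ε) * q * ε + (a - b * ε) ^ 2 * r)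
      (a * e * p * ε ^ 2 + (a * (e + d * ε) + (a - b * ε) * e) * q * ε + (a - b * ε) * (e + d * ε) * r)
      (e ^ 2 * p * ε ^ 2 + 2 * e * (e + d * ε) * q * ε + (e + d * ε) ^ 2 * r))
      (by unfold c; fun_prop) 0).comp tendsto_inv_atTop_nhds_zero_nat
    refine mem_closure_of_tendsto (by
      convert t using 2
      rw [csmul, cinj]
      refine ⟨?_, ?_, ?_⟩ <;> field_simp <;> ring) ((eventually_ne_atTop 0).mono fun N hN => ?_)
    obtain ⟨w, hw, e⟩ := sl (a := a) (b := a * N - b) (e := e) (d := e * N + d) (by linear_combination h)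
    have : (N : ℝ) ≠ 0 := by simpa using hN
    refine ⟨σ / r / N ^ 2, by positivity, w, hw, ?_⟩
    rw [e, Function.comp, csmul, csmul, cinj]
    push_cast
    refine ⟨?_, ?_, ?_⟩ <;> field_simp
  have : v ∈ closure K := by
    obtain ⟨p, q, r, rfl⟩ := ec v
    rw [cform] at h0
    by_cases e : r = 0
    · subst e
      obtain rfl : q = 0 := by simpa using h0
      simpa using k1 p 1 0 (by rintro rfl; exact hv c0.symm) isCoprime_one_left
    have : ∀ ξ : ℝ, c (r * ξ ^ 2) (r * ξ) r ∈ closure K := fun ξ =>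
      Rat.denseRange_cast.induction_on ξ (isClosed_closure.preimage (by unfold c; fun_prop)) fun x => by
        convert k1 (r / x.den ^ 2) x.num x.den (by positivity) x.isCoprime_num_den using 2 <;>
          simp only [Rat.cast_def, Int.cast_natCast] <;> field_simp
    convert this (q / r) using 2 <;> field_simp
    linarith
  obtain ⟨u, hu, l⟩ := mem_closure_iff_seq_limit.1 this
  choose t t0 w hw e using hu
  have Q : ∀ k, toBilin' B0 (u k) (u k) ≠ 0 := fun k => by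
    simp only [e, map_smul, LinearMap.smul_apply, pres (hw k), cform, smul_eq_mul]
    refine mul_ne_zero (t0 k) (mul_ne_zero (t0 k) (by convert h using 1; ring))
  have u0 : ∀ k, u k ≠ 0 := fun k e => by simpa [e] using Q k
  refine accPt_iff_frequently.2 ((tend u0 hv l).frequently (Frequently.of_forall fun k =>
    ⟨fun e => ?_, w k, hw k, (mk_eq_mk_iff' ..).2 ⟨t k, (e k).symm⟩⟩))
  obtain ⟨a, ha⟩ := (mk_eq_mk_iff' ..).1 e
  simpa [← ha, h0] using Q k

def cr (x y : Fin 3 → ℝ) : Fin 3 → ℝ := c (2 * (-x 0 * (y 2 - y 1) + (x 2 - x 1) * y 0))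
  (-x 0 * (y 0 - y 1) + y 0 * (x 0 - x 1)) (2 * ((x 2 - x 1) * (y 0 - y 1) - (x 0 - x 1) * (y 2 - y 1)))

lemma crc (p q r p' q' r' : ℝ) : cr (c p q r) (c p' q' r') =
    c (2 * (p * q' - q * p')) (p * r' - p' * r) (2 * (q * r' - r * q')) := by
  rw [cr, cinj]; simp [c]; grind

lemma crw {w : _} (h : w ∈ W B0) (x y : Fin 3 → ℝ) : ‖w (cr x y)‖ = ‖cr (w x) (w y)‖ := by
  obtain ⟨a, b, e, d, D, h⟩ := act h
  obtain ⟨p, q, r, rfl⟩ := ec x
  obtain ⟨p', q', r', rfl⟩ := ec y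
  have : cr (w (c p q r)) (w (c p' q' r')) = ((a * d - b * e : ℤ) : ℝ) • w (cr (c p q r) (c p' q' r')) := by
    rw [crc, h, h, h, crc, csmul, cinj]
    push_cast
    refine ⟨by ring, by ring, by ring⟩
  rw [this, norm_smul]
  rcases sq_eq_one_iff.1 D with h | h <;> simp [h]

lemma expand (a b v : Fin 3 → ℝ) : (toBilin' B0 a a * toBilin' B0 b b - toBilin' B0 a b ^ 2) • v =
    (toBilin' B0 v a * toBilin' B0 b b - toBilin' B0 v b * toBilin' B0 a b) • a +
    (toBilin' B0 v b * toBilin' B0 a a - toBilin' B0 v a * toBilin' B0 a b) • b +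
    (-toBilin' B0 v (cr a b) / 4) • cr a b := by
  obtain ⟨p, q, r, rfl⟩ := ec a
  obtain ⟨p', q', r', rfl⟩ := ec b
  obtain ⟨p'', q'', r'', rfl⟩ := ec v
  simp only [crc, cform, csmul, cadd, cinj]
  refine ⟨by ring, by ring, by ring⟩

lemma par {a b : Fin 3 → ℝ} (ha : a ≠ 0) (h1 : toBilin' B0 a a = 0) (h2 : toBilin' B0 b b = 0)
    (h3 : toBilin' B0 a b = 0) : ∃ μ : ℝ, b = μ • a := by
  obtain ⟨p, q, r, rfl⟩ := ec a
  obtain ⟨p', q', r', rfl⟩ := ec b
  simp only [cform, csmul, cinj, c0, Ne] at *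
  have e : p * r' - p' * r = 0 := by
    rw [← sq_eq_zero_iff]
    have : q * q' = (p * r' + p' * r) / 2 := by linarith
    have t : (q * q') ^ 2 = (p * r) * (p' * r') := by
      rw [show p * r = q * q by linarith, show p' * r' = q' * q' by linarith]; ring
    rw [this] at t
    linear_combination 4 * t
  by_cases hp : p = 0
  · have hq : q = 0 := by simpa [hp] using h1
    have hr : r ≠ 0 := by simpa [hp, hq] using ha
    have hp' : p' = 0 := by simpa [hp, hr] using e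
    have hq' : q' = 0 := by simpa [hp'] using h2
    exact ⟨r' / r, by simp [*]⟩
  · refine ⟨p' / p, by field_simp, ?_, by field_simp; linarith⟩
    field_simp
    rw [← sub_eq_zero, ← sq_eq_zero_iff]
    linear_combination p ^ 2 * h2 + p' ^ 2 * h1 - 2 * p * p' * h3

end Pool.Agent.Lib.helper6.Lor
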