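import Mathlib

namespace Pool.Agent.H6SmDf

open Finset

/-- sum index -/
noncomputable def sm {V : Type} (G : SimpleGraph V) : ℕ :=
  sInf {n | ∃ f : V → ℤ, Function.Injective f ∧
    {s | ∃ u v, G.Adj u v ∧ s = f u + f v}.ncard = n}

/-- difference index -/
noncomputable def df {V : Type} (G : SimpleGraph V) : ℕ :=
  sInf {n | ∃ f : V → ℤ, Function.Injective f ∧
    {s | ∃ u v, G.Adj u v ∧ s = |f u - f v|}.ncard = n}

def R (k m : ℕ) (x y : Fin k → Fin m) : Prop :=
  ∃ i : Option (Fin k), ∀ j, (y j : ℕ) = x j + if some j = i then 1 else 0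

def Gr (k m : ℕ) : SimpleGraph ((Fin k → Fin m) × Bool) where
  Adj u v := (u.2 = false ∧ v.2 = true ∧ R k m u.1 v.1) ∨ (v.2 = false ∧ u.2 = true ∧ R k m v.1 u.1)
  symm := ⟨fun _ _ h => h.symm⟩
  loopless := ⟨fun u h => by rcases h with h | h <;> simp [h.1] at h⟩

lemma bip (k m : ℕ) : (Gr k m).IsBipartite := by
  have : (Gr k m).Colorable (Fintype.card Bool) := SimpleGraph.Coloring.colorable
    (SimpleGraph.Coloring.mk (fun u => u.2) (by
      rintro u v (h | h) <;> simp [h.1, h.2.1]))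
  simpa using this

def lab (k m : ℕ) (u : (Fin k → Fin m) × Bool) : ℤ :=
  if u.2 then -((finFunctionFinEquiv u.1 : ℕ) : ℤ) - 1 else ((finFunctionFinEquiv u.1 : ℕ) : ℤ)

lemma lab_inj (k m : ℕ) : Function.Injective (lab k m) := by
  rintro ⟨x, b⟩ ⟨y, c⟩ h
  have key : (finFunctionFinEquiv x : ℕ) = finFunctionFinEquiv y → x = y :=
    fun h => finFunctionFinEquiv.injective (Fin.ext h)
  cases b <;> cases c <;> simp only [lab, if_true, Bool.false_eq_true, if_false] at h
  · rw [key (by omega)]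
  · omega
  · omega
  · rw [key (by omega)]

lemma sm_le (k m : ℕ) : sm (Gr k m) ≤ k + 1 := by
  classical
  refine le_trans (Nat.sInf_le ⟨lab k m, lab_inj k m, rfl⟩) ?_
  have h : ∀ x y, R k m x y → lab k m (x, false) + lab k m (y, true) ∈
      Set.range (fun i : Option (Fin k) =>
        -((∑ j : Fin k, (if some j = i then 1 else 0) * m ^ (j : ℕ) : ℕ) : ℤ) - 1) := by
    rintro x y ⟨i, hi⟩
    refine ⟨i, ?_⟩
    simp only [lab, if_true, Bool.false_eq_true, if_false, finFunctionFinEquiv_apply, hi, add_mul,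
      sum_add_distrib]
    push_cast
    ring
  simp only [← Set.image_univ] at h
  refine le_trans (Set.ncard_le_ncard ?_ (Set.finite_univ.image (fun i : Option (Fin k) =>
        -((∑ j : Fin k, (if some j = i then 1 else 0) * m ^ (j : ℕ) : ℕ) : ℤ) - 1)))
    (le_trans (Set.ncard_image_le Set.finite_univ) (by simp [Set.ncard_univ]))
  rintro s ⟨⟨x, b⟩, ⟨y, c⟩, h1 | h1, rfl⟩
  · obtain ⟨rfl, rfl, h2⟩ := h1
    exact h x y h2
  · obtain ⟨rfl, rfl, h2⟩ := h1
    rw [add_comm]
    exact h y x h2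

lemma fin_of {V : Type} [Finite V] (G : SimpleGraph V) (g : V → V → ℤ) :
    {s | ∃ u v, G.Adj u v ∧ s = g u v}.Finite :=
  (Set.finite_range (fun p : V × V => g p.1 p.2)).subset
    (by rintro s ⟨u, v, -, rfl⟩; exact ⟨(u, v), rfl⟩)

lemma le_sm (k m : ℕ) : k + 1 ≤ sm (Gr k (m + 2)) := by
  classical
  refine le_csInf ⟨_, lab k _, lab_inj k _, rfl⟩ ?_
  rintro n ⟨f, hf, rfl⟩
  let e : Option (Fin k) → Fin k → Fin (m + 2) := fun i j => if some j = i then 1 else 0
  have he : Function.Injective e := by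
    intro i i' h
    rcases i with _ | i <;> rcases i' with _ | i'
    · rfl
    · simpa [e] using congrFun h i'
    · simpa [e] using congrFun h i
    · simpa [e] using congrFun h i
  have := Set.ncard_le_ncard_of_injOn (s := Set.univ)
    (t := {s | ∃ u v, (Gr k (m + 2)).Adj u v ∧ s = f u + f v})
    (fun i => f (0, false) + f (e i, true)) ?_ ?_ (fin_of _ _)
  · simpa [Set.ncard_univ] using this
  · intro i _
    refine ⟨_, _, Or.inl ⟨rfl, rfl, i, fun j => ?_⟩, rfl⟩
    by_cases h : some j = i <;> simp [e, h]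
  · intro i _ i' _ h
    exact he (congrArg Prod.fst (hf (add_left_cancel h)))

noncomputable def S (D : Finset ℤ) (L : ℕ) : Finset ℤ :=
  (Fintype.piFinset fun _ : D => Finset.Icc (-(L : ℤ)) L).image fun c => ∑ d : D, c d * (d : ℤ)

lemma card_S (D : Finset ℤ) (L : ℕ) : (S D L).card ≤ (2 * L + 1) ^ D.card := by
  refine le_trans card_image_le ?_
  rw [Fintype.card_piFinset]
  simp only [Int.card_Icc, prod_const, card_univ, Fintype.card_coe]
  apply le_of_eq
  congr 1
  omega

lemma S_step (D : Finset ℤ) (L : ℕ) (z w : ℤ) (hz : z ∈ S D L) (h : |z - w| ∈ D) :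
    w ∈ S D (L + 1) := by
  classical
  obtain ⟨c, hc, rfl⟩ := mem_image.mp hz
  obtain ⟨ε, h1, h2⟩ : ∃ ε : ℤ, (ε = 1 ∨ ε = -1) ∧
      w = ∑ d : D, c d * d + ε * |∑ d : D, c d * (d : ℤ) - w| := by
    rcases abs_cases (∑ d : D, c d * (d : ℤ) - w) with h3 | h3
    · exact ⟨-1, Or.inr rfl, by rw [h3.1]; ring⟩
    · exact ⟨1, Or.inl rfl, by rw [h3.1]; ring⟩
  refine mem_image.mpr ⟨fun d => c d + if d = ⟨_, h⟩ then ε else 0, ?_, ?_⟩
  · rw [Fintype.mem_piFinset] at hc ⊢
    intro d
    have := hc d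
    simp only [mem_Icc] at this ⊢
    push_cast
    split_ifs <;> omega
  · simp only [add_mul, sum_add_distrib, ite_mul, zero_mul, sum_ite_eq', mem_univ, if_true]
    exact h2.symm

lemma S_mono (D : Finset ℤ) {L L' : ℕ} (h : L ≤ L') : S D L ⊆ S D L' :=
  image_subset_image (Fintype.piFinset_subset _ _ fun _ => Icc_subset_Icc (by omega) (by omega))

lemma df_pow (k m : ℕ) : (m + 2) ^ k ≤ (2 * (2 * (k * (m + 2))) + 1) ^ df (Gr k (m + 2)) := by
  classical
  obtain ⟨f, hf, hn⟩ := Nat.sInf_mem (s := {n | ∃ f : (Fin k → Fin (m + 2)) × Bool → ℤ,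
    Function.Injective f ∧ {s | ∃ u v, (Gr k (m + 2)).Adj u v ∧ s = |f u - f v|}.ncard = n})
    ⟨_, lab k _, lab_inj k _, rfl⟩
  have hfin := fin_of (Gr k (m + 2)) (fun u v => |f u - f v|)
  set D := hfin.toFinset with hD
  have hDc : D.card = df (Gr k (m + 2)) := by
    rw [df, ← hn, Set.ncard_eq_toFinset_card _ hfin]
  have hst : ∀ L u v, (Gr k (m + 2)).Adj u v → f u - f (0, false) ∈ S D L →
      f v - f (0, false) ∈ S D (L + 1) := by
    intro L u v h hz
    refine S_step D L _ _ hz ?_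
    rw [hD, Set.Finite.mem_toFinset]
    exact ⟨u, v, h, by ring_nf⟩
  have main : ∀ n (x : Fin k → Fin (m + 2)), ∑ j, (x j : ℕ) = n →
      f (x, false) - f (0, false) ∈ S D (2 * n) := by
    intro n
    induction n with
    | zero =>
      intro x hx
      have : x = 0 := by
        funext j
        exact Fin.ext ((Finset.sum_eq_zero_iff.mp hx) j (mem_univ _))
      subst this
      exact mem_image.mpr ⟨fun _ => 0, by simp, by simp⟩
    | succ n ih =>
      intro x hx
      obtain ⟨i, -, hi⟩ := Finset.exists_ne_zero_of_sum_ne_zero (by rw [hx]; omega :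
        ∑ j, (x j : ℕ) ≠ 0)
      let y : Fin k → Fin (m + 2) := fun j =>
        if j = i then ⟨x j - 1, by have := (x j).2; omega⟩ else x j
      have hxy : ∀ j, (x j : ℕ) = y j + if some j = some i then 1 else 0 := by
        intro j
        by_cases h : j = i
        · subst h
          simp only [y, if_true]
          omega
        · simp [y, h]
      have hy : ∑ j, (y j : ℕ) = n := by
        rw [Finset.sum_congr rfl (fun j _ => hxy j), sum_add_distrib] at hx
        simp at hx
        exact hx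
      have h1 := hst _ (y, false) (x, true) (Or.inl ⟨rfl, rfl, some i, hxy⟩) (ih y hy)
      exact hst _ (x, true) (x, false) (Or.inr ⟨rfl, rfl, none, by simp⟩) h1
  have hle := Finset.card_le_card_of_injOn (s := univ) (t := S D (2 * (k * (m + 2))))
    (fun x : Fin k → Fin (m + 2) => f (x, false) - f (0, false)) ?_ ?_
  · rw [← hDc]
    refine le_trans ?_ (card_S D _)
    simpa using hle
  · intro x _
    refine S_mono D ?_ (main _ x rfl)
    refine Nat.mul_le_mul_left 2 ?_
    refine le_trans (Finset.sum_le_card_nsmul _ _ (m + 2) fun j _ => (x j).2.le) (by simp)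
  · intro x _ y _ h
    exact congrArg Prod.fst (hf (sub_left_injective h))

lemma main (k : ℕ) : ∃ (V : Type) (_ : Fintype V) (G : SimpleGraph V), G ≠ ⊥ ∧ G.IsBipartite ∧
    sm G = k + 1 ∧ k ≤ df G := by
  let m := (4 * k + 1) ^ k
  refine ⟨_, inferInstance, Gr k (m + 2), ?_, bip _ _, le_antisymm (sm_le _ _) (le_sm _ _), ?_⟩
  · intro h
    have : (Gr k (m + 2)).Adj (0, false) (0, true) := Or.inl ⟨rfl, rfl, none, by simp⟩
    rw [h] at this
    exact this
  · by_contra hlt
    push Not at hlt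
    have h1 := df_pow k m
    obtain ⟨r, hr⟩ : ∃ r, k = r + 1 := ⟨k - 1, by omega⟩
    have h2 : (2 * (2 * (k * (m + 2))) + 1) ^ df (Gr k (m + 2)) ≤ ((4 * k + 1) * (m + 2)) ^ r :=
      le_trans (Nat.pow_le_pow_right (by omega) (by omega)) (Nat.pow_le_pow_left (by nlinarith) r)
    have h3 : (4 * k + 1) ^ r ≤ m := Nat.pow_le_pow_right (by omega) (by omega)
    have h4 : 0 < (m + 2) ^ r := by positivity
    have h5 : (m + 2) ^ k = (m + 2) ^ r * (m + 2) := by rw [← pow_succ, ← hr]
    rw [mul_pow] at h2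
    nlinarith

end Pool.Agent.H6SmDf
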