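import Mathlib

namespace Pool.Agent.H6Tau

open Finset SimpleGraph

/-- antimagic: a bijection from the edges to `{1, …, m}` with pairwise distinct vertex sums -/
def Antimagic {V : Type} (G : SimpleGraph V) : Prop :=
  ∃ f : Sym2 V → ℕ, Set.BijOn f G.edgeSet (Set.Icc 1 G.edgeSet.ncard) ∧
    Function.Injective fun v => ∑ᶠ e ∈ G.incidenceSet v, f e

/-- `t` disjoint copies of the path with three vertices -/
def P3s (t : ℕ) : SimpleGraph (Fin t × Fin 3) where
  Adj u v := u.1 = v.1 ∧ (pathGraph 3).Adj u.2 v.2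
  symm := ⟨fun _ _ h => ⟨h.1.symm, h.2.symm⟩⟩
  loopless := ⟨fun _ h => h.2.ne rfl⟩

/-- the parameter `τ`, equal to `⊥ = -∞` when `G` is not antimagic -/
noncomputable def tau {V : Type} (G : SimpleGraph V) : EReal :=
  ⨆ (t : ℕ) (_ : ∀ s ≤ t, Antimagic (G.sum (P3s s))), (t : EReal)

variable {V W ι κ : Type}

def Enum (G : SimpleGraph V) (e : ι → Sym2 V) : Prop :=
  Function.Injective e ∧ Set.range e = G.edgeSet

def vs [Fintype ι] [DecidableEq V] (e : ι → Sym2 V) (l : ι → ℕ) (v : V) : ℕ :=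
  ∑ i, if v ∈ e i then l i else 0

def Good [Fintype ι] [DecidableEq V] (e : ι → Sym2 V) (l : ι → ℕ) : Prop :=
  Set.BijOn l Set.univ (Set.Icc 1 (Fintype.card ι)) ∧ Function.Injective (vs e l)

lemma Enum.ncard [Fintype ι] {G : SimpleGraph V} {e : ι → Sym2 V} (h : Enum G e) :
    G.edgeSet.ncard = Fintype.card ι := by
  rw [← h.2, Set.ncard_range_of_injective h.1, Nat.card_eq_fintype_card]

lemma Enum.finsum [Fintype ι] [DecidableEq V] {G : SimpleGraph V} {e : ι → Sym2 V} (h : Enum G e)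
    (f : Sym2 V → ℕ) (v : V) : ∑ᶠ x ∈ G.incidenceSet v, f x = vs e (f ∘ e) v := by
  have : G.incidenceSet v = e '' (univ.filter fun i => v ∈ e i : Finset ι) := by
    ext x
    simp only [incidenceSet, ← h.2, Set.mem_ofPred_eq, Set.mem_range, coe_filter, mem_univ,
      true_and, Set.mem_image]
    exact ⟨by rintro ⟨⟨i, rfl⟩, a⟩; exact ⟨i, a, rfl⟩, by rintro ⟨i, a, rfl⟩; exact ⟨⟨i, rfl⟩, a⟩⟩
  rw [this, finsum_mem_image h.1.injOn, finsum_mem_coe_finset, sum_filter]
  rfl

lemma am_iff [Fintype ι] [DecidableEq V] {G : SimpleGraph V} {e : ι → Sym2 V} (h : Enum G e) :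
    Antimagic G ↔ ∃ l, Good e l := by
  have hb : Set.BijOn e Set.univ G.edgeSet := by
    rw [← h.2, ← Set.image_univ]
    exact h.1.injOn.bijOn_image
  simp only [Antimagic, h.ncard, h.finsum]
  constructor
  · rintro ⟨f, h1, h2⟩
    exact ⟨f ∘ e, h1.comp hb, h2⟩
  · rintro ⟨l, h1, h2⟩
    have : Function.extend e l 0 ∘ e = l := Function.extend_comp h.1 _ _
    refine ⟨Function.extend e l 0, ?_, by rw [this]; exact h2⟩
    rw [← this] at h1
    rw [← h.2]
    refine ⟨?_, ?_, fun y hy => ?_⟩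
    · rintro _ ⟨i, rfl⟩
      exact h1.mapsTo trivial
    · rintro _ ⟨i, rfl⟩ _ ⟨j, rfl⟩ a
      rw [h1.injOn trivial trivial a]
    · obtain ⟨i, -, hi⟩ := h1.surjOn hy
      exact ⟨_, ⟨i, rfl⟩, hi⟩

def se (e : ι → Sym2 V) (e' : κ → Sym2 W) : ι ⊕ κ → Sym2 (V ⊕ W) :=
  Sum.elim (fun i => (e i).map Sum.inl) fun i => (e' i).map Sum.inr

lemma Enum.sum {G : SimpleGraph V} {H : SimpleGraph W} {e : ι → Sym2 V} {e' : κ → Sym2 W}
    (h : Enum G e) (h' : Enum H e') : Enum (G.sum H) (se e e') := by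
  have k : ∀ (x : Sym2 V) (y : Sym2 W), x.map Sum.inl ≠ y.map Sum.inr := by
    intro x y
    induction x using Sym2.ind
    induction y using Sym2.ind
    simp
  constructor
  · rintro (a | a) (b | b) hab
    · rw [h.1 (Sym2.map.injective Sum.inl_injective hab)]
    · exact absurd hab (k _ _)
    · exact absurd hab.symm (k _ _)
    · rw [h'.1 (Sym2.map.injective Sum.inr_injective hab)]
  · ext x
    constructor
    · rintro ⟨a | a, rfl⟩
      · have : e a ∈ G.edgeSet := h.2 ▸ ⟨a, rfl⟩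
        simp only [se, Sum.elim_inl]
        generalize e a = y at *
        induction y using Sym2.ind
        exact this
      · have : e' a ∈ H.edgeSet := h'.2 ▸ ⟨a, rfl⟩
        simp only [se, Sum.elim_inr]
        generalize e' a = y at *
        induction y using Sym2.ind
        exact this
    · induction x using Sym2.ind with
      | _ u v =>
        rcases u with u | u <;> rcases v with v | v <;> intro a
        · obtain ⟨i, hi⟩ : s(u, v) ∈ Set.range e := h.2 ▸ a
          exact ⟨Sum.inl i, by simp [se, hi]⟩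
        · simp at a
        · simp at a
        · obtain ⟨i, hi⟩ : s(u, v) ∈ Set.range e' := h'.2 ▸ a
          exact ⟨Sum.inr i, by simp [se, hi]⟩

lemma vs_inl [Fintype ι] [Fintype κ] [DecidableEq V] [DecidableEq W] (e : ι → Sym2 V)
    (e' : κ → Sym2 W) (l : ι ⊕ κ → ℕ) (v : V) :
    vs (se e e') l (Sum.inl v) = vs e (fun i => l (Sum.inl i)) v := by
  simp [vs, se]

lemma vs_inr [Fintype ι] [Fintype κ] [DecidableEq V] [DecidableEq W] (e : ι → Sym2 V)
    (e' : κ → Sym2 W) (l : ι ⊕ κ → ℕ) (v : W) :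
    vs (se e e') l (Sum.inr v) = vs e' (fun i => l (Sum.inr i)) v := by
  simp [vs, se]

def pe (t : ℕ) (i : Fin t × Bool) : Sym2 (Fin t × Fin 3) :=
  s((i.1, 1), (i.1, if i.2 then 2 else 0))

lemma enum_P3 (t : ℕ) : Enum (P3s t) (pe t) := by
  constructor
  · rintro ⟨a, b⟩ ⟨c, d⟩ h
    cases b <;> cases d <;> simp_all [pe]
  · ext x
    induction x using Sym2.ind with
    | _ u v =>
      obtain ⟨a, b⟩ := u
      obtain ⟨c, d⟩ := v
      fin_cases b <;> fin_cases d <;> simp [pe, P3s, pathGraph_adj] <;> exact eq_comm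

lemma vs_P3 (t : ℕ) (l : Fin t × Bool → ℕ) (k : Fin t) (a : Fin 3) : vs (pe t) l (k, a) =
    (if a = 0 then 0 else l (k, true)) + if a = 2 then 0 else l (k, false) := by
  fin_cases a <;> simp [vs, pe, Fintype.sum_prod_type, sum_add_distrib]

lemma low {α : Type} (S : Finset α) (g : α → ℕ) (b : ℕ) (h : Set.InjOn g S)
    (hb : ∀ x ∈ S, b < g x) : S.card * (2 * b + S.card + 1) ≤ 2 * ∑ x ∈ S, g x := by
  classical
  have key : ∀ T : Finset ℕ, (∀ x ∈ T, b < x) →
      T.card * (2 * b + T.card + 1) ≤ 2 * ∑ x ∈ T, x := by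
    intro T
    induction T using Finset.induction_on_max with
    | empty => simp
    | insert a s ha ih =>
      intro hT
      have h1 : a ∉ s := fun h => lt_irrefl _ (ha a h)
      have h2 := ih fun x hx => hT x (mem_insert_of_mem hx)
      have h3 : s.card ≤ (Ioo b a).card := card_le_card fun x hx =>
        mem_Ioo.mpr ⟨hT x (mem_insert_of_mem hx), ha x hx⟩
      have h4 := hT a (mem_insert_self _ _)
      rw [Nat.card_Ioo] at h3
      rw [card_insert_of_notMem h1, sum_insert h1]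
      have : s.card + b + 1 ≤ a := by omega
      nlinarith
  have := key (S.image g) (by simpa using hb)
  rwa [card_image_of_injOn h, sum_image h] at this

lemma sum_l [Fintype ι] {l : ι → ℕ} (h : Set.BijOn l Set.univ (Set.Icc 1 (Fintype.card ι))) :
    2 * ∑ i, l i = Fintype.card ι * (Fintype.card ι + 1) := by
  rw [Finset.sum_nbij (t := Icc 1 (Fintype.card ι)) (g := id) l (by simpa using h.mapsTo)
    (by simpa using h.injOn) (by simpa using h.surjOn) (by simp)]
  generalize Fintype.card ι = n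
  induction n with
  | zero => simp
  | succ n ih =>
    rw [Finset.sum_Icc_succ_top (by omega), mul_add, ih]
    simp only [id]
    ring

lemma total [Fintype ι] [Fintype V] [DecidableEq V] {G : SimpleGraph V} {e : ι → Sym2 V}
    (h : Enum G e) (l : ι → ℕ) : ∑ v, vs e l v = 2 * ∑ i, l i := by
  unfold vs
  rw [sum_comm, mul_sum]
  refine sum_congr rfl fun i _ => ?_
  have : e i ∈ G.edgeSet := h.2 ▸ ⟨i, rfl⟩
  generalize e i = y at *
  induction y using Sym2.ind with
  | _ a b =>
    rw [← sum_filter, show (univ.filter fun v => v ∈ s(a, b)) = {a, b} by ext; simp,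
      sum_pair (G.ne_of_adj this), two_mul]

lemma vs_pos [Fintype ι] [DecidableEq V] {e : ι → Sym2 V} {l : ι → ℕ} (h : Good e l) (v : V)
    (hv : ∃ i, v ∈ e i) : 0 < vs e l v := by
  obtain ⟨i, hi⟩ := hv
  refine lt_of_lt_of_le ?_ (single_le_sum (f := fun i => if v ∈ e i then l i else 0)
    (fun _ _ => Nat.zero_le _) (mem_univ i))
  simp only [hi, if_true]
  exact (h.1.mapsTo (Set.mem_univ i)).1

lemma cover_P3 (e : ι → Sym2 V) (h : ∀ v, ∃ i, v ∈ e i) (t : ℕ) (v : V ⊕ Fin t × Fin 3) :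
    ∃ i, v ∈ se e (pe t) i := by
  rcases v with v | ⟨k, a⟩
  · obtain ⟨i, hi⟩ := h v
    exact ⟨Sum.inl i, by simpa [se] using hi⟩
  · exact ⟨Sum.inr (k, a = 2), by fin_cases a <;> simp [se, pe]⟩

lemma tau_lt (G : SimpleGraph V) (t : ℕ) (h : ¬ Antimagic (G.sum (P3s (t + 1)))) :
    tau G ≤ t :=
  iSup₂_le fun s hs => by
    have : s ≤ t := not_lt.mp fun a => h (hs _ a)
    exact_mod_cast this

end Pool.Agent.H6Tau
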